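import Pool.Agent.Weird.Assembly

set_option autoImplicit false

namespace Pool.Agent.Weird

open Finset

theorem sum_inv_bound {k₀ : ℕ} (hk₀ : 4 ≤ k₀)
    (hthr : ∀ k, k₀ ≤ k → 2 ^ 40 * (k ^ 2) ^ 6 ≤ 2 ^ k) {n : ℕ} (hn : 0 < n)
    (hns : ¬ ∃ s ⊆ n.properDivisors, ∑ i ∈ s, i = n) :
    ∑ p ∈ n.primeFactors, 1 / (p : ℝ) ≤
      2 ^ k₀ + ∑' k : ℕ, 1 / (k : ℝ) ^ 2 + 2 + ∑' k : ℕ, 2 / (2 : ℝ) ^ k := by
  classical
  set K := n + k₀ with hK
  obtain ⟨B, hB, hBn, hBp, hBgood, hBS, hBsum⟩ :=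
    inv_all (K := K) hn hns hk₀ hthr (by omega)
  have hBR : (0 : ℝ) < B := by exact_mod_cast hB
  have hfB : (S B : ℝ) / B ≤ 2 := by
    rw [div_le_iff₀ hBR]
    exact_mod_cast hBS.le
  have hsplit : ∑ p ∈ n.primeFactors, 1 / (p : ℝ) =
      ∑ p ∈ n.primeFactors.filter (fun p => p < 2 ^ k₀), 1 / (p : ℝ) +
      ∑ p ∈ n.primeFactors.filter (fun p => ¬ p < 2 ^ k₀), 1 / (p : ℝ) :=
    (Finset.sum_filter_add_sum_filter_not _ _ _).symm
  have hsmall : ∑ p ∈ n.primeFactors.filter (fun p => p < 2 ^ k₀), 1 / (p : ℝ) ≤ 2 ^ k₀ := by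
    have h1 : ∀ p ∈ n.primeFactors.filter (fun p => p < 2 ^ k₀), 1 / (p : ℝ) ≤ 1 := by
      intro p hp
      have hpp := Nat.prime_of_mem_primeFactors (Finset.mem_filter.mp hp).1
      rw [div_le_one (by exact_mod_cast hpp.pos)]
      exact_mod_cast hpp.one_lt.le
    have h2 : (n.primeFactors.filter (fun p => p < 2 ^ k₀)).card ≤ 2 ^ k₀ := by
      have : n.primeFactors.filter (fun p => p < 2 ^ k₀) ⊆ Finset.range (2 ^ k₀) := by
        intro p hp
        exact Finset.mem_range.mpr (Finset.mem_filter.mp hp).2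
      simpa using Finset.card_le_card this
    calc _ ≤ (n.primeFactors.filter (fun p => p < 2 ^ k₀)).card • (1 : ℝ) :=
          Finset.sum_le_card_nsmul _ _ _ h1
      _ = ((n.primeFactors.filter (fun p => p < 2 ^ k₀)).card : ℝ) := by simp
      _ ≤ 2 ^ k₀ := by exact_mod_cast h2
  have hlarge : ∑ p ∈ n.primeFactors.filter (fun p => ¬ p < 2 ^ k₀), 1 / (p : ℝ) ≤
      ∑ i ∈ Finset.Ico k₀ K, sk n i := by
    have hmaps : ∀ p ∈ n.primeFactors.filter (fun p => ¬ p < 2 ^ k₀),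
        Nat.log 2 p ∈ Finset.Ico k₀ K := by
      intro p hp
      rw [Finset.mem_filter] at hp
      have hpp := Nat.prime_of_mem_primeFactors hp.1
      have hpn : p ≤ n := Nat.le_of_mem_primeFactors hp.1
      rw [Finset.mem_Ico]
      constructor
      · exact Nat.le_log_of_pow_le (by norm_num) (by omega)
      · have h1 : Nat.log 2 p < p := Nat.log_lt_self 2 hpp.ne_zero
        omega
    rw [← Finset.sum_fiberwise_of_maps_to hmaps]
    apply Finset.sum_le_sum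
    intro i hi
    unfold sk
    apply Finset.sum_le_sum_of_subset_of_nonneg
    · intro p hp
      rw [Finset.mem_filter, Finset.mem_filter] at hp
      have hpp := Nat.prime_of_mem_primeFactors hp.1.1
      unfold Pk
      rw [Finset.mem_filter]
      refine ⟨hp.1.1, ?_, ?_⟩
      · rw [← hp.2]; exact Nat.pow_log_le_self 2 hpp.ne_zero
      · rw [← hp.2]; exact Nat.lt_pow_succ_log_self (by norm_num) p
    · intro p _ _
      positivity
  have hsk : ∀ i ∈ Finset.Ico k₀ K, sk n i ≤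
      (if Dense n i then sk n i else 0) + 1 / (i : ℝ) ^ 2 := by
    intro i hi
    rw [Finset.mem_Ico] at hi
    have hipos : (0 : ℝ) < (i : ℝ) := by
      have : 0 < i := by omega
      exact_mod_cast this
    by_cases hd : Dense n i
    · rw [if_pos hd]
      have : (0 : ℝ) ≤ 1 / (i : ℝ) ^ 2 := by positivity
      linarith
    · rw [if_neg hd, zero_add]
      refine (sk_le_one n i).trans ?_
      unfold Dense at hd
      push Not at hd
      rw [div_le_div_iff₀ (by positivity) (by positivity), one_mul]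
      exact_mod_cast hd.le
  have hsum1 : ∑ i ∈ Finset.Ico k₀ K, sk n i ≤
      ∑ i ∈ Finset.Ico k₀ K, (if Dense n i then sk n i else 0) +
        ∑ i ∈ Finset.Ico k₀ K, 1 / (i : ℝ) ^ 2 := by
    rw [← Finset.sum_add_distrib]
    exact Finset.sum_le_sum hsk
  have hT1 : ∑ i ∈ Finset.Ico k₀ K, 1 / (i : ℝ) ^ 2 ≤ ∑' k : ℕ, 1 / (k : ℝ) ^ 2 :=
    Summable.sum_le_tsum _ (fun i _ => by positivity)
      (Real.summable_one_div_nat_pow.mpr (by norm_num))
  have hT2 : ∑ i ∈ Finset.Ico k₀ K, 2 / (2 : ℝ) ^ i ≤ ∑' k : ℕ, 2 / (2 : ℝ) ^ k := by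
    apply Summable.sum_le_tsum _ (fun i _ => by positivity)
    have : Summable (fun i : ℕ => 2 * (1 / 2 : ℝ) ^ i) := summable_geometric_two.mul_left 2
    refine this.congr (fun i => ?_)
    rw [one_div, inv_pow]
    rfl
  linarith

/-- Weird numbers have bounded abundancy index. -/
theorem main : ∃ C : ℝ, ∀ m : ℕ, 0 < m →
      (¬ ∃ s ⊆ m.properDivisors, ∑ i ∈ s, i = m) →
      ((∑ i ∈ m.divisors, i : ℕ) : ℝ) / (m : ℝ) ≤ C := by
  obtain ⟨k₀, hk₀, hthr⟩ := exists_threshold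
  set W := (2 : ℝ) ^ k₀ + ∑' k : ℕ, 1 / (k : ℝ) ^ 2 + 2 + ∑' k : ℕ, 2 / (2 : ℝ) ^ k with hW
  refine ⟨Real.exp (2 * W), fun m hm hns => ?_⟩
  have hmR : (0 : ℝ) < m := by exact_mod_cast hm
  rw [div_le_iff₀ hmR]
  have h1 := sigma_le_prod m hm
  have h2 := sum_inv_bound hk₀ hthr hm hns
  calc ((∑ i ∈ m.divisors, i : ℕ) : ℝ) ≤ m * ∏ p ∈ m.primeFactors, (1 + 2 / (p : ℝ)) := h1
    _ ≤ m * Real.exp (∑ p ∈ m.primeFactors, 2 / (p : ℝ)) := by
      apply mul_le_mul_of_nonneg_left _ hmR.le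
      exact Real.prod_one_add_le_exp_sum _ (fun p => by positivity)
    _ ≤ m * Real.exp (2 * W) := by
      apply mul_le_mul_of_nonneg_left _ hmR.le
      apply Real.exp_le_exp.mpr
      have : ∑ p ∈ m.primeFactors, 2 / (p : ℝ) = 2 * ∑ p ∈ m.primeFactors, 1 / (p : ℝ) := by
        rw [Finset.mul_sum]
        apply Finset.sum_congr rfl
        intro p _
        ring
      rw [this]
      linarith
    _ = Real.exp (2 * W) * m := by ring

end Pool.Agent.Weird
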