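import Pool.Agent.Weird.Comb

set_option autoImplicit false

namespace Pool.Agent.Weird

open Finset

theorem sigma_prod {P : Finset ℕ} (hP : ∀ p ∈ P, p.Prime) :
    ∑ d ∈ (∏ p ∈ P, p).divisors, d = ∏ p ∈ P, (p + 1) := by
  classical
  induction P using Finset.induction_on with
  | empty => simp
  | insert q P hq ih =>
    have hqp := hP q (Finset.mem_insert_self _ _)
    have hcop : Nat.Coprime q (∏ p ∈ P, p) := by
      apply Nat.Coprime.prod_right
      intro p hp
      have hpp := hP p (Finset.mem_insert_of_mem hp)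
      exact (Nat.coprime_primes hqp hpp).mpr (fun h => hq (h ▸ hp))
    rw [Finset.prod_insert hq, Finset.prod_insert hq, Nat.Coprime.sum_divisors_mul hcop,
      ih (fun p hp => hP p (Finset.mem_insert_of_mem hp)), Nat.Prime.sum_divisors hqp]

theorem sigma_prod_real {P : Finset ℕ} (hP : ∀ p ∈ P, p.Prime) :
    ((∑ d ∈ (∏ p ∈ P, p).divisors, d : ℕ) : ℝ) =
      ((∏ p ∈ P, p : ℕ) : ℝ) * ∏ p ∈ P, (1 + 1 / (p : ℝ)) := by
  rw [sigma_prod hP]
  push_cast
  rw [← Finset.prod_mul_distrib]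
  apply Finset.prod_congr rfl
  intro p hp
  have : (p : ℝ) ≠ 0 := by exact_mod_cast (hP p hp).ne_zero
  field_simp

theorem one_add_sum_le {P : Finset ℕ} (f : ℕ → ℝ) (hf : ∀ p ∈ P, 0 ≤ f p) :
    1 + ∑ p ∈ P, f p ≤ ∏ p ∈ P, (1 + f p) := by
  classical
  induction P using Finset.induction_on with
  | empty => simp
  | insert q P hq ih =>
    rw [Finset.sum_insert hq, Finset.prod_insert hq]
    have h1 := ih (fun p hp => hf p (Finset.mem_insert_of_mem hp))
    have h2 := hf q (Finset.mem_insert_self _ _)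
    have h3 : 0 ≤ ∑ p ∈ P, f p := Finset.sum_nonneg (fun p hp => hf p (Finset.mem_insert_of_mem hp))
    nlinarith

theorem sigma_le_prod (n : ℕ) : 0 < n →
    ((∑ d ∈ n.divisors, d : ℕ) : ℝ) ≤ n * ∏ p ∈ n.primeFactors, (1 + 2 / (p : ℝ)) := by
  induction n using Nat.recOnPosPrimePosCoprime with
  | zero => intro h; omega
  | one => intro _; simp
  | prime_pow p k hp hk =>
    intro _
    rw [Nat.primeFactors_prime_pow hk.ne' hp, Finset.prod_singleton]
    rw [Nat.sum_divisors_prime_pow hp]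
    have hp2 : (2 : ℝ) ≤ p := by exact_mod_cast hp.two_le
    push_cast
    rw [geom_sum_eq (by linarith : (p : ℝ) ≠ 1)]
    rw [div_le_iff₀ (by linarith)]
    have hpk : (0 : ℝ) < (p : ℝ) ^ k := by positivity
    have h1 : (p : ℝ) ^ k * (1 + 2 / p) * (p - 1) = (p : ℝ) ^ k * (p + 1 - 2 / p) := by
      field_simp
      ring
    rw [h1, pow_succ]
    have h2 : 2 / (p : ℝ) ≤ 1 := by rw [div_le_one (by linarith)]; exact hp2
    nlinarith
  | coprime a b ha hb hab iha ihb =>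
    intro _
    rw [Nat.Coprime.sum_divisors_mul hab, Nat.Coprime.primeFactors_mul hab,
      Finset.prod_union hab.disjoint_primeFactors]
    push_cast
    have h1 := iha (by omega)
    have h2 := ihb (by omega)
    push_cast at h1 h2
    calc (∑ d ∈ a.divisors, (d : ℝ)) * ∑ d ∈ b.divisors, (d : ℝ)
        ≤ (a * ∏ p ∈ a.primeFactors, (1 + 2 / (p : ℝ))) *
          (b * ∏ p ∈ b.primeFactors, (1 + 2 / (p : ℝ))) := by
          apply mul_le_mul h1 h2
          · positivity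
          · positivity
      _ = _ := by ring

/-- Large `k` threshold. -/
theorem exists_threshold : ∃ k₀ : ℕ, 4 ≤ k₀ ∧ ∀ k, k₀ ≤ k → 2 ^ 40 * (k ^ 2) ^ 6 ≤ 2 ^ k := by
  have h := tendsto_pow_const_div_const_pow_of_one_lt 12 (show (1 : ℝ) < 2 by norm_num)
  have h2 := h.eventually (gt_mem_nhds (show (0 : ℝ) < 1 / 2 ^ 40 by positivity))
  rw [Filter.eventually_atTop] at h2
  obtain ⟨K, hK⟩ := h2
  refine ⟨max K 4, le_max_right _ _, fun k hk => ?_⟩
  have h3 := hK k ((le_max_left _ _).trans hk)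
  rw [div_lt_div_iff₀ (by positivity) (by positivity)] at h3
  have h4 : ((2 ^ 40 * (k ^ 2) ^ 6 : ℕ) : ℝ) ≤ ((2 ^ k : ℕ) : ℝ) := by
    push_cast
    nlinarith
  exact_mod_cast h4

/-- Primes of `n` in the dyadic interval. -/
def Pk (n k : ℕ) : Finset ℕ := n.primeFactors.filter (fun p => 2 ^ k ≤ p ∧ p < 2 ^ (k + 1))

def Dense (n k : ℕ) : Prop := 2 ^ k ≤ (Pk n k).card * k ^ 2

noncomputable def sk (n k : ℕ) : ℝ := ∑ p ∈ Pk n k, 1 / (p : ℝ)

theorem sk_nonneg (n k : ℕ) : 0 ≤ sk n k := Finset.sum_nonneg (fun p _ => by positivity)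

theorem Pk_prime {n k p : ℕ} (hp : p ∈ Pk n k) : p.Prime ∧ 2 ^ k ≤ p ∧ p < 2 * 2 ^ k := by
  unfold Pk at hp
  rw [Finset.mem_filter] at hp
  refine ⟨Nat.prime_of_mem_primeFactors hp.1, hp.2.1, ?_⟩
  have := hp.2.2
  rw [pow_succ] at this
  omega

theorem card_Pk_le (n k : ℕ) : (Pk n k).card ≤ 2 ^ k := by
  have : Pk n k ⊆ Finset.Ico (2 ^ k) (2 * 2 ^ k) := by
    intro p hp
    have := Pk_prime hp
    rw [Finset.mem_Ico]
    exact this.2
  have h := Finset.card_le_card this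
  rw [Nat.card_Ico] at h
  omega

theorem sk_le_one (n k : ℕ) : sk n k ≤ (Pk n k).card / 2 ^ k := by
  unfold sk
  have h1 : ∀ p ∈ Pk n k, 1 / (p : ℝ) ≤ 1 / 2 ^ k := by
    intro p hp
    have h2 : ((2 ^ k : ℕ) : ℝ) ≤ (p : ℝ) := by exact_mod_cast (Pk_prime hp).2.1
    push_cast at h2
    exact one_div_le_one_div_of_le (by positivity) h2
  calc ∑ p ∈ Pk n k, 1 / (p : ℝ) ≤ (Pk n k).card • (1 / 2 ^ k : ℝ) :=
        Finset.sum_le_card_nsmul _ _ _ h1
    _ = (Pk n k).card / 2 ^ k := by rw [nsmul_eq_mul]; ring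

theorem S_real {m : ℕ} (hm : 0 < m) : (S m : ℝ) = ((∑ d ∈ m.divisors, d : ℕ) : ℝ) - m := by
  rw [sigma_eq hm]
  push_cast
  ring

theorem S_real_div {m : ℕ} (hm : 0 < m) :
    (S m : ℝ) / m = ((∑ d ∈ m.divisors, d : ℕ) : ℝ) / m - 1 := by
  rw [S_real hm, sub_div, div_self (by exact_mod_cast hm.ne')]

open Classical in
/-- Invariant of the descending procedure. -/
def Inv (n K k : ℕ) : Prop :=
  ∃ B, 0 < B ∧ B ∣ n ∧ (∀ p, p.Prime → p ∣ B → 2 ^ k ≤ p) ∧
    (B = 1 ∨ (Good B ∧ 2 ^ (k + 2) ≤ S B)) ∧ S B < 2 * B ∧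
    ∑ i ∈ Finset.Ico k K, (if Dense n i then sk n i else 0) ≤
      (S B : ℝ) / B + ∑ i ∈ Finset.Ico k K, 2 / (2 : ℝ) ^ i

theorem S_one : S 1 = 0 := by
  unfold S
  simp

theorem inv_step {n K k k₀ : ℕ} (hn : 0 < n)
    (hns : ¬ ∃ s ⊆ n.properDivisors, ∑ i ∈ s, i = n) (hk₀ : 4 ≤ k₀)
    (hthr : ∀ k, k₀ ≤ k → 2 ^ 40 * (k ^ 2) ^ 6 ≤ 2 ^ k) (hk : k₀ ≤ k) (hkK : k < K)
    (h : Inv n K (k + 1)) : Inv n K k := by
  classical
  obtain ⟨B, hB, hBn, hBp, hBgood, hBS, hBsum⟩ := h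
  have hsumD : ∑ i ∈ Finset.Ico k K, (if Dense n i then sk n i else 0) =
      (if Dense n k then sk n k else 0) +
        ∑ i ∈ Finset.Ico (k + 1) K, (if Dense n i then sk n i else 0) :=
    Finset.sum_eq_sum_Ico_succ_bot hkK _
  have hsum2 : ∑ i ∈ Finset.Ico k K, 2 / (2 : ℝ) ^ i =
      2 / (2 : ℝ) ^ k + ∑ i ∈ Finset.Ico (k + 1) K, 2 / (2 : ℝ) ^ i :=
    Finset.sum_eq_sum_Ico_succ_bot hkK _
  have hpow : (0 : ℝ) < 2 / (2 : ℝ) ^ k := by positivity
  have hpowk : 2 ^ k ≤ 2 ^ (k + 1) := Nat.pow_le_pow_right (by norm_num) (by omega)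
  have hpowk2 : 2 ^ (k + 2) ≤ 2 ^ (k + 1 + 2) := Nat.pow_le_pow_right (by norm_num) (by omega)
  by_cases hdense : Dense n k
  swap
  · -- not dense: keep B
    refine ⟨B, hB, hBn, fun p hp hpB => hpowk.trans (hBp p hp hpB), ?_, hBS, ?_⟩
    · rcases hBgood with h1 | ⟨h1, h2⟩
      · exact Or.inl h1
      · exact Or.inr ⟨h1, hpowk2.trans h2⟩
    · rw [hsumD, hsum2, if_neg hdense]
      linarith
  -- dense block
  set A := ∏ p ∈ Pk n k, p with hAdef
  have hPkp : ∀ p ∈ Pk n k, p.Prime := fun p hp => (Pk_prime hp).1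
  have hblock := block (z := 2 ^ k) (L := k ^ 2) (P := Pk n k) (fun p hp => Pk_prime hp)
    (Nat.one_le_pow _ _ (by omega)) (hthr k hk) hdense
  rw [← hAdef] at hblock
  obtain ⟨hgA, hSA⟩ := hblock
  have hA : 0 < A := Finset.prod_pos (fun p hp => (hPkp p hp).pos)
  have hAn : A ∣ n := by
    have h1 : A ∣ ∏ p ∈ n.primeFactors, p :=
      Finset.prod_dvd_prod_of_subset _ _ _ (Finset.filter_subset _ _)
    exact h1.trans (Nat.prod_primeFactors_dvd n)
  have hAp : ∀ p, p.Prime → p ∣ A → 2 ^ k ≤ p ∧ p < 2 * 2 ^ k := by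
    intro p hp hpA
    rw [hAdef, Prime.dvd_finsetProd_iff hp.prime] at hpA
    obtain ⟨q, hq, hpq⟩ := hpA
    have : p = q := (Nat.prime_dvd_prime_iff_eq hp (hPkp q hq)).mp hpq
    rw [this]
    exact (Pk_prime hq).2
  have hSA' : 2 ^ (k + 2) ≤ S A := by
    calc 2 ^ (k + 2) ≤ 2 ^ (k * 2) := Nat.pow_le_pow_right (by norm_num) (by omega)
      _ = (2 ^ k) ^ 2 := pow_mul _ _ _
      _ ≤ S A := hSA
  have hAR : (0 : ℝ) < A := by exact_mod_cast hA
  have hBR : (0 : ℝ) < B := by exact_mod_cast hB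
  -- σ(A)/A
  have hσA : ((∑ d ∈ A.divisors, d : ℕ) : ℝ) = A * ∏ p ∈ Pk n k, (1 + 1 / (p : ℝ)) :=
    sigma_prod_real hPkp
  have hskle : sk n k ≤ 1 := by
    refine (sk_le_one n k).trans ?_
    rw [div_le_one (by positivity)]
    exact_mod_cast card_Pk_le n k
  have hprodle : ∏ p ∈ Pk n k, (1 + 1 / (p : ℝ)) ≤ 3 := by
    calc ∏ p ∈ Pk n k, (1 + 1 / (p : ℝ)) ≤ Real.exp (∑ p ∈ Pk n k, 1 / (p : ℝ)) :=
          Real.prod_one_add_le_exp_sum _ (fun p => by positivity)
      _ ≤ Real.exp 1 := Real.exp_le_exp.mpr hskle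
      _ ≤ 3 := by
        have := Real.exp_one_lt_d9
        linarith
  have hprodge : 1 + sk n k ≤ ∏ p ∈ Pk n k, (1 + 1 / (p : ℝ)) :=
    one_add_sum_le _ (fun p _ => by positivity)
  have hfA : sk n k ≤ (S A : ℝ) / A := by
    rw [S_real_div hA, hσA, mul_comm, mul_div_assoc, div_self hAR.ne', mul_one]
    linarith
  have hσA3 : ∑ d ∈ A.divisors, d ≤ 3 * A := by
    have : ((∑ d ∈ A.divisors, d : ℕ) : ℝ) ≤ ((3 * A : ℕ) : ℝ) := by
      rw [hσA]
      push_cast
      nlinarith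
    exact_mod_cast this
  -- windows
  have hwin : ∀ C : ℕ, 0 < C → C ∣ n → Good C → S C ≤ 16 * C → S C < 2 * C := by
    intro C hC hCn hgC h16
    by_contra hcon
    push Not at hcon
    exact hns (semiperfect_of_dvd hn hCn (hgC.semiperfect hcon h16))
  have hσAS := sigma_eq hA
  have hSAlt : S A < 2 * A := hwin A hA hAn hgA (by omega)
  rcases hBgood with hB1 | ⟨hgB, hSB⟩
  · -- B = 1
    subst hB1
    refine ⟨A, hA, hAn, fun p hp hpA => (hAp p hp hpA).1, Or.inr ⟨hgA, hSA'⟩, hSAlt, ?_⟩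
    rw [hsumD, hsum2, if_pos hdense]
    rw [S_one] at hBsum
    simp only [Nat.cast_zero, zero_div, zero_add] at hBsum
    linarith
  · by_cases hsz : 2 * B ≤ S B * ∑ d ∈ A.divisors, d
    · -- combine
      have hcop : Nat.Coprime A B := by
        rw [Nat.coprime_iff_gcd_eq_one]
        by_contra hcon
        have hpr := Nat.minFac_prime hcon
        have h1 : (Nat.gcd A B).minFac ∣ A := (Nat.minFac_dvd _).trans (Nat.gcd_dvd_left _ _)
        have h2 : (Nat.gcd A B).minFac ∣ B := (Nat.minFac_dvd _).trans (Nat.gcd_dvd_right _ _)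
        have h3 := (hAp _ hpr h1).2
        have h4 := hBp _ hpr h2
        rw [pow_succ] at h4
        omega
      have hgAB : Good (A * B) := comb hcop hA hB hgA hgB (by
        intro p hp hpA
        have h1 := (hAp p hp hpA).2
        have h2 : 2 ^ (k + 1 + 2) = 8 * 2 ^ k := by ring
        omega) hsz
      have hABn : A * B ∣ n := hcop.mul_dvd_of_dvd_of_dvd hAn hBn
      have hAB : 0 < A * B := Nat.mul_pos hA hB
      have hSAB := S_mul hcop hA hB
      have hSAB16 : S (A * B) ≤ 16 * (A * B) := by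
        rw [hSAB]
        have h1 : B * S A ≤ B * (2 * A) := Nat.mul_le_mul_left _ hSAlt.le
        have h2 : (∑ d ∈ A.divisors, d) * S B ≤ (3 * A) * (2 * B) :=
          Nat.mul_le_mul hσA3 hBS.le
        nlinarith
      refine ⟨A * B, hAB, hABn, ?_, Or.inr ⟨hgAB, ?_⟩, hwin _ hAB hABn hgAB hSAB16, ?_⟩
      · intro p hp hpAB
        rcases (Nat.Prime.dvd_mul hp).mp hpAB with h1 | h1
        · exact (hAp p hp h1).1
        · exact hpowk.trans (hBp p hp h1)
      · calc 2 ^ (k + 2) ≤ S A := hSA'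
          _ ≤ B * S A := Nat.le_mul_of_pos_left _ hB
          _ ≤ S (A * B) := by rw [hSAB]; exact Nat.le_add_right _ _
      · rw [hsumD, hsum2, if_pos hdense]
        have hf : (S A : ℝ) / A + (S B : ℝ) / B ≤ (S (A * B) : ℝ) / ((A * B : ℕ) : ℝ) := by
          rw [hSAB]
          push_cast
          rw [div_add_div _ _ hAR.ne' hBR.ne', div_le_div_iff_of_pos_right (by positivity)]
          have h1 : (A : ℝ) ≤ ∑ d ∈ A.divisors, (d : ℝ) := by
            have : A ≤ ∑ d ∈ A.divisors, d := by omega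
            have h2 : ((A : ℕ) : ℝ) ≤ ((∑ d ∈ A.divisors, d : ℕ) : ℝ) := by exact_mod_cast this
            push_cast at h2
            exact h2
          have h2 : (0 : ℝ) ≤ S B := by positivity
          nlinarith
        linarith
    · -- drop B
      push Not at hsz
      refine ⟨A, hA, hAn, fun p hp hpA => (hAp p hp hpA).1, Or.inr ⟨hgA, hSA'⟩, hSAlt, ?_⟩
      rw [hsumD, hsum2, if_pos hdense]
      have hSBlt : (S B : ℝ) / B ≤ 2 / 2 ^ k := by
        rw [div_le_div_iff₀ hBR (by positivity)]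
        have hAk : 2 ^ k ≤ A := by
          have hne : (Pk n k).Nonempty := by
            rw [← Finset.card_pos]
            by_contra hcon
            have h0 : (Pk n k).card = 0 := by omega
            unfold Dense at hdense
            rw [h0, zero_mul] at hdense
            have : 0 < 2 ^ k := by positivity
            omega
          obtain ⟨q, hq⟩ := hne
          exact (Pk_prime hq).2.1.trans (Nat.le_of_dvd hA (Finset.dvd_prod_of_mem _ hq))
        have h1 : S B * 2 ^ k ≤ 2 * B := by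
          calc S B * 2 ^ k ≤ S B * ∑ d ∈ A.divisors, d := Nat.mul_le_mul_left _ (by omega)
            _ ≤ 2 * B := hsz.le
        exact_mod_cast h1
      linarith

theorem inv_top (n K : ℕ) : Inv n K K := by
  refine ⟨1, one_pos, one_dvd _, ?_, Or.inl rfl, by rw [S_one]; norm_num, ?_⟩
  · intro p hp h
    exact absurd (Nat.dvd_one.mp h) hp.one_lt.ne'
  · simp [S_one]

theorem inv_all {n K k₀ : ℕ} (hn : 0 < n)
    (hns : ¬ ∃ s ⊆ n.properDivisors, ∑ i ∈ s, i = n) (hk₀ : 4 ≤ k₀)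
    (hthr : ∀ k, k₀ ≤ k → 2 ^ 40 * (k ^ 2) ^ 6 ≤ 2 ^ k) (hK : k₀ ≤ K) : Inv n K k₀ := by
  have h : ∀ j, j ≤ K - k₀ → Inv n K (K - j) := by
    intro j
    induction j with
    | zero => intro _; exact inv_top n K
    | succ j ih =>
      intro hj
      have h1 := ih (by omega)
      have h2 : K - j = (K - (j + 1)) + 1 := by omega
      rw [h2] at h1
      exact inv_step hn hns hk₀ hthr (by omega) (by omega) h1
  have := h (K - k₀) le_rfl
  rwa [show K - (K - k₀) = k₀ by omega] at this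

end Pool.Agent.Weird
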