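import Pool.Agent.Weird.Stage1

set_option autoImplicit false

namespace Pool.Agent.Weird

open Finset

/-- Sum of proper divisors. -/
def S (m : ℕ) : ℕ := ∑ i ∈ m.properDivisors, i

/-- The middle range of `[0, S m]` consists of sums of distinct proper divisors of `m`. -/
def Good (m : ℕ) : Prop := ∃ a, 16 * a ≤ S m ∧ Cov m.properDivisors a (S m - a)

theorem extend {z : ℕ} (hz : 1 ≤ z) {M : ℕ} {D : Finset ℕ} {a b : ℕ} (hD : ∀ d ∈ D, d ∣ M)
    (hab : a + 2 * z ≤ b) (hcov : Cov D a b) (Q : Finset ℕ)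
    (hQ : ∀ q ∈ Q, q.Prime ∧ ¬ q ∣ M ∧ z ≤ q ∧ q ≤ 2 * z) :
    ∃ D' : Finset ℕ, (∀ d ∈ D', d ∣ M * ∏ q ∈ Q, q) ∧ ∃ a' b',
      a' + 2 * z * z ^ Q.card ≤ b' ∧ Cov D' a' b' := by
  classical
  induction Q using Finset.induction_on with
  | empty => exact ⟨D, by simpa using hD, a, b, by simpa using hab, hcov⟩
  | insert q Q hqQ ih =>
    obtain ⟨D', hD', a', b', hab', hcov'⟩ := ih (fun x hx => hQ x (Finset.mem_insert_of_mem hx))
    obtain ⟨hqp, hqM, hzq, hq2z⟩ := hQ q (Finset.mem_insert_self _ _)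
    have hpow : 1 ≤ z ^ Q.card := Nat.one_le_pow _ _ hz
    have hlen : 2 * z ≤ 2 * z * z ^ Q.card := Nat.le_mul_of_pos_right _ hpow
    have hqn : ∀ d ∈ D', ¬ q ∣ d := by
      intro d hd hqd
      have h1 : q ∣ M * ∏ x ∈ Q, x := hqd.trans (hD' d hd)
      rcases (Nat.Prime.dvd_mul hqp).mp h1 with h2 | h2
      · exact hqM h2
      · rw [Prime.dvd_finsetProd_iff hqp.prime] at h2
        obtain ⟨x, hx, hqx⟩ := h2
        have hxp := (hQ x (Finset.mem_insert_of_mem hx)).1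
        have : q = x := (Nat.prime_dvd_prime_iff_eq hqp hxp).mp hqx
        exact hqQ (this ▸ hx)
    refine ⟨D' ∪ D'.image (fun x => q * x), ?_, a' + q * a', b' + q * b', ?_, ?_⟩
    · intro d hd
      rw [Finset.prod_insert hqQ]
      simp only [Finset.mem_union, Finset.mem_image] at hd
      rcases hd with hd | ⟨x, hx, rfl⟩
      · calc d ∣ M * ∏ x ∈ Q, x := hD' d hd
          _ ∣ M * (q * ∏ x ∈ Q, x) := Nat.mul_dvd_mul_left _ (Dvd.intro_left _ rfl)
      · calc q * x ∣ q * (M * ∏ x ∈ Q, x) := Nat.mul_dvd_mul_left _ (hD' x hx)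
          _ = M * (q * ∏ x ∈ Q, x) := by ring
    · rw [Finset.card_insert_of_notMem hqQ, pow_succ]
      have h1 : z * (2 * z * z ^ Q.card) ≤ q * (b' - a') := Nat.mul_le_mul hzq (by omega)
      have h2 : q * (b' - a') = q * b' - q * a' := Nat.mul_sub _ _ _
      have h3 : q * a' ≤ q * b' := Nat.mul_le_mul_left _ (by omega)
      have h4 : 2 * z * (z ^ Q.card * z) = z * (2 * z * z ^ Q.card) := by ring
      omega
    · apply Cov.union_smul hcov' hcov' (by omega) (by omega) hqp.pos _ (by omega)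
      rw [Finset.disjoint_left]
      intro x hx hx'
      rw [Finset.mem_image] at hx'
      obtain ⟨y, _, rfl⟩ := hx'
      exact hqn _ hx (Dvd.intro _ rfl)

/-- The counting inequality behind the greedy step. -/
theorem count_ineq {z L J u v : ℕ} (hL : 1 ≤ L) (hz : 2 ^ 40 * L ^ 6 ≤ z) (hJ : z ≤ J * L)
    (hu : 8 * L + 1 ≤ u) (hv : 1 ≤ v) (huv : u + v + 1 = J) : 4 * z ≤ u.choose 2 * v := by
  have hch : 2 * u.choose 2 = u * (u - 1) := by
    rw [Nat.choose_two_right]
    exact Nat.mul_div_cancel' (Nat.even_mul_pred_self u).two_dvd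
  have hL6 : L ≤ L ^ 6 := by
    calc L = L ^ 1 := (pow_one L).symm
      _ ≤ L ^ 6 := Nat.pow_le_pow_right hL (by norm_num)
  rcases le_or_gt u v with h | h
  · -- u ≤ v
    have h1 : (8 * L + 1) * (8 * L) ≤ u * (u - 1) := Nat.mul_le_mul hu (by omega)
    have h2 : 32 * L ^ 2 ≤ u.choose 2 := by nlinarith
    have h3 : J ≤ 4 * v := by omega
    have h4 : 8 * L * z ≤ 32 * L ^ 2 * v := by
      calc 8 * L * z ≤ 8 * L * (J * L) := Nat.mul_le_mul_left _ hJ
        _ ≤ 8 * L * ((4 * v) * L) := by gcongr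
        _ = 32 * L ^ 2 * v := by ring
    calc 4 * z ≤ 8 * L * z := by nlinarith
      _ ≤ 32 * L ^ 2 * v := h4
      _ ≤ u.choose 2 * v := Nat.mul_le_mul_right _ h2
  · have h1 : J ≤ 2 * u := by omega
    have h2 : 64 * z ≤ J ^ 2 := by
      have h3 : 64 * L ^ 2 * z ≤ J ^ 2 * L ^ 2 := by
        calc 64 * L ^ 2 * z ≤ 2 ^ 40 * L ^ 6 * z := by gcongr <;> norm_num
          _ ≤ z * z := Nat.mul_le_mul_right _ hz
          _ ≤ (J * L) * (J * L) := Nat.mul_le_mul hJ hJ
          _ = J ^ 2 * L ^ 2 := by ring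
      have h4 : (64 * z) * L ^ 2 ≤ J ^ 2 * L ^ 2 := by
        calc (64 * z) * L ^ 2 = 64 * L ^ 2 * z := by ring
          _ ≤ _ := h3
      exact Nat.le_of_mul_le_mul_right h4 (by positivity)
    have h5 : u * u ≤ 2 * (u * (u - 1)) := by
      obtain ⟨w, rfl⟩ : ∃ w, u = w + 1 := ⟨u - 1, by omega⟩
      simp only [Nat.add_sub_cancel]
      nlinarith
    have h6 : J ^ 2 ≤ 4 * (u * u) := by nlinarith
    have h7 : 4 * z ≤ u.choose 2 := by nlinarith
    calc 4 * z ≤ u.choose 2 := h7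
      _ ≤ u.choose 2 * v := Nat.le_mul_of_pos_right _ hv

/-- The greedy step: sum of smaller non-special divisors. -/
theorem greedy_step {z L : ℕ} {P Ps : Finset ℕ} (hP : ∀ p ∈ P, p.Prime ∧ z ≤ p ∧ p < 2 * z)
    (hL : 1 ≤ L) (hz : 2 ^ 40 * L ^ 6 ≤ z) (hcard : z ≤ P.card * L) (hPs : Ps ⊆ P)
    {e : ℕ} (he : e ∣ ∏ p ∈ P, p) (hne : e ≠ ∏ p ∈ P, p) (hes : ¬ e ∣ ∏ p ∈ Ps, p) :
    e ≤ 2 * z * z ^ (16 * L) +
      ∑ d ∈ ((∏ p ∈ P, p).divisors.filter (fun d => d ≠ ∏ p ∈ P, p ∧ ¬ d ∣ ∏ p ∈ Ps, p)).filter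
        (fun d => d < e), d := by
  classical
  have hz2 : 2 ≤ z := by
    have : 1 ≤ L ^ 6 := Nat.one_le_pow _ _ hL
    omega
  set m := ∏ p ∈ P, p with hm
  have hmpos : 0 < m := Finset.prod_pos (fun p hp => (hP p hp).1.pos)
  have hPp : ∀ p ∈ P, p.Prime := fun p hp => (hP p hp).1
  have hepos : 0 < e := Nat.pos_of_dvd_of_pos he hmpos
  -- e is the product of its prime factors
  have hmsq : Squarefree m := by
    rw [hm]
    apply Finset.squarefree_prod_of_pairwise_isCoprime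
    · intro p hp q hq hpq
      exact Nat.coprime_iff_isRelPrime.mp ((Nat.coprime_primes (hPp p hp) (hPp q hq)).mpr hpq)
    · intro p hp
      exact (hPp p hp).squarefree
  have hesq : Squarefree e := hmsq.squarefree_of_dvd he
  set s := e.primeFactors with hs
  have hprod : ∏ p ∈ s, p = e := Nat.prod_primeFactors_of_squarefree hesq
  have hmP : m.primeFactors = P := Nat.primeFactors_prod hPp
  have hsP : s ⊆ P := by
    rw [← hmP]
    exact Nat.primeFactors_mono he hmpos.ne'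
  by_cases hcase : s.card ≤ 8 * L + 1
  · have h1 : e ≤ (2 * z) ^ s.card := by
      rw [← hprod]
      exact Finset.prod_le_pow_card _ _ _ (fun p hp => (hP p (hsP hp)).2.2.le)
    have h2 : (2 * z) ^ s.card ≤ (2 * z) ^ (8 * L + 1) :=
      Nat.pow_le_pow_right (by omega) hcase
    have h3 : (2 * z) ^ (8 * L + 1) ≤ 2 * z * z ^ (16 * L) := by
      calc (2 * z) ^ (8 * L + 1) = 2 * z * (2 * z) ^ (8 * L) := by rw [pow_succ]; ring
        _ ≤ 2 * z * (z * z) ^ (8 * L) := by gcongr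
        _ = 2 * z * z ^ (16 * L) := by
          congr 1
          rw [← sq, ← pow_mul]
          congr 1
          ring
    omega
  · push Not at hcase
    -- non-special prime
    obtain ⟨p₀, hp₀s, hp₀⟩ : ∃ p₀ ∈ s, p₀ ∉ Ps := by
      by_contra hcon
      push Not at hcon
      apply hes
      rw [← hprod]
      exact Finset.prod_dvd_prod_of_subset _ _ _ hcon
    set U := s.erase p₀ with hU
    set V := P \ s with hV
    have hUcard : U.card + 1 = s.card := Finset.card_erase_add_one hp₀s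
    have hVcard : V.card + s.card = P.card := Finset.card_sdiff_add_card_eq_card hsP
    have hVpos : 1 ≤ V.card := by
      rw [Nat.one_le_iff_ne_zero, Ne, Finset.card_eq_zero, hV, Finset.sdiff_eq_empty_iff_subset]
      intro hcon
      apply hne
      rw [← hprod, Finset.Subset.antisymm hsP hcon]
    set T := (U.powersetCard 2) ×ˢ V with hT
    have hTcard : T.card = U.card.choose 2 * V.card := by
      rw [hT, Finset.card_product, Finset.card_powersetCard]
    have h4z : 4 * z ≤ T.card := by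
      rw [hTcard]
      exact count_ineq hL hz hcard (by omega) hVpos (by omega)
    let φ : Finset ℕ × ℕ → ℕ := fun t => ∏ p ∈ insert t.2 (s \ t.1), p
    -- basic facts for t ∈ T
    have hTmem : ∀ t ∈ T, t.1 ⊆ s ∧ t.1.card = 2 ∧ p₀ ∉ t.1 ∧ t.2 ∈ P ∧ t.2 ∉ s := by
      intro t ht
      rw [hT, Finset.mem_product, Finset.mem_powersetCard] at ht
      obtain ⟨⟨h1, h2⟩, h3⟩ := ht
      rw [hV, Finset.mem_sdiff] at h3
      refine ⟨h1.trans (Finset.erase_subset _ _), h2, ?_, h3.1, h3.2⟩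
      intro hcon
      exact (Finset.mem_erase.mp (h1 hcon)).1 rfl
    have hsubP : ∀ t ∈ T, insert t.2 (s \ t.1) ⊆ P := by
      intro t ht
      obtain ⟨h1, h2, h3, h4, h5⟩ := hTmem t ht
      exact Finset.insert_subset h4 (Finset.sdiff_subset.trans hsP)
    have hinj : Set.InjOn φ (T : Set (Finset ℕ × ℕ)) := by
      intro t ht t' ht' h
      have ht1 := hTmem t ht
      have ht1' := hTmem t' ht'
      have hset : insert t.2 (s \ t.1) = insert t'.2 (s \ t'.1) :=
        prod_injOn_primes hPp (hsubP t ht) (hsubP t' ht') h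
      have h2 : t.2 = t'.2 := by
        have h3 : t.2 ∈ insert t'.2 (s \ t'.1) := by
          rw [← hset]; exact Finset.mem_insert_self _ _
        rw [Finset.mem_insert] at h3
        rcases h3 with h3 | h3
        · exact h3
        · exact absurd (Finset.mem_sdiff.mp h3).1 ht1.2.2.2.2
      have h3 : s \ t.1 = s \ t'.1 := by
        have e1 : (insert t.2 (s \ t.1)).erase t.2 = s \ t.1 :=
          Finset.erase_insert (fun hh => ht1.2.2.2.2 (Finset.mem_sdiff.mp hh).1)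
        have e2 : (insert t'.2 (s \ t'.1)).erase t'.2 = s \ t'.1 :=
          Finset.erase_insert (fun hh => ht1'.2.2.2.2 (Finset.mem_sdiff.mp hh).1)
        rw [← e1, ← e2, hset, h2]
      have h4 : t.1 = t'.1 := by
        rw [← Finset.sdiff_sdiff_eq_self ht1.1, ← Finset.sdiff_sdiff_eq_self ht1'.1, h3]
      exact Prod.ext h4 h2
    have hφmul : ∀ t ∈ T, φ t * ∏ p ∈ t.1, p = t.2 * e := by
      intro t ht
      obtain ⟨h1, h2, h3, h4, h5⟩ := hTmem t ht
      have h6 : t.2 ∉ s \ t.1 := fun hh => h5 (Finset.mem_sdiff.mp hh).1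
      calc φ t * ∏ p ∈ t.1, p = (t.2 * ∏ p ∈ s \ t.1, p) * ∏ p ∈ t.1, p := by
            simp only [φ]
            rw [Finset.prod_insert h6]
        _ = t.2 * ((∏ p ∈ s \ t.1, p) * ∏ p ∈ t.1, p) := by ring
        _ = t.2 * e := by rw [Finset.prod_sdiff h1, hprod]
    have hw : ∀ t ∈ T, z ^ 2 ≤ ∏ p ∈ t.1, p ∧ ∏ p ∈ t.1, p ≤ 4 * z ^ 2 := by
      intro t ht
      obtain ⟨h1, h2, h3, h4, h5⟩ := hTmem t ht
      obtain ⟨x, y, hxy, hxyeq⟩ := Finset.card_eq_two.mp h2
      have hx := hP x (hsP (h1 (by rw [hxyeq]; simp)))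
      have hy := hP y (hsP (h1 (by rw [hxyeq]; simp)))
      rw [hxyeq, Finset.prod_pair hxy]
      constructor
      · rw [sq]; exact Nat.mul_le_mul hx.2.1 hy.2.1
      · calc x * y ≤ (2 * z) * (2 * z) := Nat.mul_le_mul hx.2.2.le hy.2.2.le
          _ = 4 * z ^ 2 := by ring
    have hφlt : ∀ t ∈ T, φ t < e := by
      intro t ht
      have h1 := hφmul t ht
      have h2 := (hw t ht).1
      have h3 := (hP t.2 (hTmem t ht).2.2.2.1).2.2
      have h4 : φ t * z ^ 2 < e * z ^ 2 := by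
        calc φ t * z ^ 2 ≤ φ t * ∏ p ∈ t.1, p := Nat.mul_le_mul_left _ h2
          _ = t.2 * e := h1
          _ < (2 * z) * e := Nat.mul_lt_mul_of_pos_right h3 hepos
          _ ≤ (z * z) * e := by gcongr
          _ = e * z ^ 2 := by ring
      exact lt_of_mul_lt_mul_right h4 (Nat.zero_le _)
    have hφge : ∀ t ∈ T, e ≤ 4 * z * φ t := by
      intro t ht
      have h1 := hφmul t ht
      have h2 := (hw t ht).2
      have h3 := (hP t.2 (hTmem t ht).2.2.2.1).2.1
      have h4 : z * e ≤ z * (4 * z * φ t) := by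
        calc z * e ≤ t.2 * e := Nat.mul_le_mul_right _ h3
          _ = φ t * ∏ p ∈ t.1, p := h1.symm
          _ ≤ φ t * (4 * z ^ 2) := Nat.mul_le_mul_left _ h2
          _ = z * (4 * z * φ t) := by ring
      exact Nat.le_of_mul_le_mul_left h4 (by omega)
    have himg : T.image φ ⊆
        ((m.divisors.filter (fun d => d ≠ m ∧ ¬ d ∣ ∏ p ∈ Ps, p)).filter (fun d => d < e)) := by
      intro d hd
      rw [Finset.mem_image] at hd
      obtain ⟨t, ht, rfl⟩ := hd
      rw [Finset.mem_filter, Finset.mem_filter, Nat.mem_divisors]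
      have hlt := hφlt t ht
      have hem : e ≤ m := Nat.le_of_dvd hmpos he
      refine ⟨⟨⟨Finset.prod_dvd_prod_of_subset _ _ _ (hsubP t ht), hmpos.ne'⟩, by omega, ?_⟩, hlt⟩
      intro hcon
      have h1 : p₀ ∣ φ t := by
        apply Finset.dvd_prod_of_mem
        apply Finset.mem_insert_of_mem
        rw [Finset.mem_sdiff]
        exact ⟨hp₀s, (hTmem t ht).2.2.1⟩
      have h2 : p₀ ∣ ∏ p ∈ Ps, p := h1.trans hcon
      have hp₀p := hPp p₀ (hsP hp₀s)
      rw [Prime.dvd_finsetProd_iff hp₀p.prime] at h2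
      obtain ⟨x, hx, hqx⟩ := h2
      have : p₀ = x := (Nat.prime_dvd_prime_iff_eq hp₀p (hPp x (hPs hx))).mp hqx
      exact hp₀ (this ▸ hx)
    have hsum1 : ∑ t ∈ T, φ t ≤
        ∑ d ∈ ((m.divisors.filter (fun d => d ≠ m ∧ ¬ d ∣ ∏ p ∈ Ps, p)).filter
          (fun d => d < e)), d := by
      rw [← Finset.sum_image (f := fun d => d) hinj]
      exact Finset.sum_le_sum_of_subset himg
    have hsum2 : T.card * e ≤ 4 * z * ∑ t ∈ T, φ t := by
      rw [Finset.mul_sum, ← smul_eq_mul, ← Finset.sum_const]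
      exact Finset.sum_le_sum hφge
    have hsum3 : e ≤ ∑ t ∈ T, φ t := by
      have : 4 * z * e ≤ 4 * z * ∑ t ∈ T, φ t := (Nat.mul_le_mul_right _ h4z).trans hsum2
      exact Nat.le_of_mul_le_mul_left this (by omega)
    omega

theorem block {z L : ℕ} {P : Finset ℕ} (hP : ∀ p ∈ P, p.Prime ∧ z ≤ p ∧ p < 2 * z)
    (hL : 1 ≤ L) (hz : 2 ^ 40 * L ^ 6 ≤ z) (hcard : z ≤ P.card * L) :
    Good (∏ p ∈ P, p) ∧ z ^ 2 ≤ S (∏ p ∈ P, p) := by
  classical
  have hL6 : 1 ≤ L ^ 6 := Nat.one_le_pow _ _ hL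
  have hL5 : L ≤ L ^ 5 := by
    calc L = L ^ 1 := (pow_one L).symm
      _ ≤ L ^ 5 := Nat.pow_le_pow_right hL (by norm_num)
  have hzbig : 2 ^ 40 ≤ z := by omega
  have hJbig : 2 ^ 40 * L ^ 5 ≤ P.card := by
    have h2 : (2 ^ 40 * L ^ 5) * L ≤ P.card * L := by
      calc (2 ^ 40 * L ^ 5) * L = 2 ^ 40 * L ^ 6 := by ring
        _ ≤ z := hz
        _ ≤ _ := hcard
    exact Nat.le_of_mul_le_mul_right h2 (by omega)
  have hPp : ∀ p ∈ P, p.Prime := fun p hp => (hP p hp).1
  -- P1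
  obtain ⟨P1, hP1, hP1c⟩ := Finset.exists_subset_card_eq (show P.card / 4 ≤ P.card by omega)
  obtain ⟨Q, hQ, hQc⟩ := Finset.exists_subset_card_eq (s := P \ P1) (n := 16 * L) (by
    have := Finset.card_sdiff_add_card_eq_card hP1
    omega)
  have hP1disjQ : Disjoint P1 Q := by
    rw [Finset.disjoint_left]
    intro x hx hx'
    exact (Finset.mem_sdiff.mp (hQ hx')).2 hx
  have hQP : Q ⊆ P := hQ.trans Finset.sdiff_subset
  obtain ⟨D1, hD1, a1, b1, hab1, hcov1⟩ := stage1 (z := z) (L := L) (P := P1)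
    (fun p hp => hP p (hP1 hp)) hL hz (by
      calc z ≤ P.card * L := hcard
        _ ≤ (8 * P1.card) * L := Nat.mul_le_mul_right _ (by omega))
  obtain ⟨D, hD, a, b, hab, hcov⟩ := extend (z := z) (by omega) hD1 hab1 hcov1 Q (by
    intro q hq
    have hqP := hP q (hQP hq)
    refine ⟨hqP.1, ?_, hqP.2.1, hqP.2.2.le⟩
    intro hdvd
    rw [Prime.dvd_finsetProd_iff hqP.1.prime] at hdvd
    obtain ⟨x, hx, hqx⟩ := hdvd
    have : q = x := (Nat.prime_dvd_prime_iff_eq hqP.1 (hPp x (hP1 hx))).mp hqx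
    exact Finset.disjoint_left.mp hP1disjQ (this ▸ hx) hq)
  rw [hQc] at hab
  rw [← Finset.prod_union hP1disjQ] at hD
  set Ps := P1 ∪ Q with hPs
  have hPsP : Ps ⊆ P := Finset.union_subset hP1 hQP
  have hPscard : Ps.card + 2 ≤ P.card := by
    have := Finset.card_union_le P1 Q
    rw [← hPs] at this
    omega
  set m := ∏ p ∈ P, p with hm
  set ms := ∏ p ∈ Ps, p with hms
  have hmpos : 0 < m := Finset.prod_pos (fun p hp => (hP p hp).1.pos)
  have hmspos : 0 < ms := Finset.prod_pos (fun p hp => (hP p (hPsP hp)).1.pos)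
  have hmsm : ms ∣ m := Finset.prod_dvd_prod_of_subset _ _ _ hPsP
  -- two nonspecial primes
  have hns : 2 ≤ (P \ Ps).card := by
    have := Finset.card_sdiff_add_card_eq_card hPsP
    omega
  obtain ⟨p0, hp0, p1, hp1, hp01⟩ := Finset.one_lt_card.mp (show 1 < (P \ Ps).card by omega)
  rw [Finset.mem_sdiff] at hp0 hp1
  -- c = product of nonspecial primes except p1
  set c := ∏ p ∈ (P \ Ps).erase p1, p with hc
  have hcpos : 0 < c := Finset.prod_pos (fun p hp =>
    (hP p (Finset.mem_sdiff.mp (Finset.erase_subset _ _ hp)).1).1.pos)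
  have hmeq : ms * c * p1 = m := by
    have h1 : c * p1 = ∏ p ∈ P \ Ps, p :=
      Finset.prod_erase_mul _ _ (Finset.mem_sdiff.mpr hp1)
    rw [mul_assoc, h1, mul_comm, Finset.prod_sdiff hPsP]
  have hp0c : p0 ∣ c := Finset.dvd_prod_of_mem _ (by
    rw [Finset.mem_erase, Finset.mem_sdiff]
    exact ⟨hp01, hp0⟩)
  have hcz : z ≤ c := (hP p0 hp0.1).2.1.trans (Nat.le_of_dvd hcpos hp0c)
  have hp1z := hP p1 hp1.1
  have hmscm : ms * c < m := by
    rw [← hmeq]
    have h1 : 0 < ms * c := Nat.mul_pos hmspos hcpos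
    have h2 : 1 < p1 := hp1z.1.one_lt
    nlinarith
  -- S m ≥ σ(ms) * c
  have hSm : (∑ d ∈ ms.divisors, d) * c ≤ S m := by
    unfold S
    rw [Finset.sum_mul, ← Finset.sum_image (s := ms.divisors) (g := fun d => d * c) (f := fun d => d)]
    · apply Finset.sum_le_sum_of_subset
      intro x hx
      rw [Finset.mem_image] at hx
      obtain ⟨d, hd, rfl⟩ := hx
      have hdms : d ∣ ms := Nat.dvd_of_mem_divisors hd
      rw [Nat.mem_properDivisors]
      constructor
      · calc d * c ∣ ms * c := Nat.mul_dvd_mul_right hdms _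
          _ ∣ m := Dvd.intro _ hmeq
      · calc d * c ≤ ms * c := Nat.mul_le_mul_right _ (Nat.le_of_dvd hmspos hdms)
          _ < m := hmscm
    · intro x _ y _ hxy
      exact Nat.eq_of_mul_eq_mul_right hcpos hxy
  have hDdiv : D ⊆ ms.divisors := fun d hd => Nat.mem_divisors.mpr ⟨hD d hd, hmspos.ne'⟩
  have hDsum : ∑ d ∈ D, d ≤ ∑ d ∈ ms.divisors, d := Finset.sum_le_sum_of_subset hDdiv
  -- R
  set R := m.divisors.filter (fun d => d ≠ m ∧ ¬ d ∣ ms) with hR
  have hDR : Disjoint D R := by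
    rw [Finset.disjoint_left]
    intro x hx hx'
    rw [hR, Finset.mem_filter] at hx'
    exact hx'.2.2 (hD x hx)
  have hab' : a ≤ b := by omega
  have hstep := hcov.greedy hab' R hDR (by
    intro e he
    rw [hR, Finset.mem_filter, Nat.mem_divisors] at he
    have := greedy_step (z := z) (L := L) hP hL hz hcard hPsP he.1.1 he.2.1 he.2.2
    rw [← hm, ← hms, ← hR] at this
    omega)
  -- R'
  set R' := ms.divisors \ D with hR'
  have hDRR' : Disjoint (D ∪ R) R' := by
    rw [Finset.disjoint_left]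
    intro x hx hx'
    rw [hR', Finset.mem_sdiff, Nat.mem_divisors] at hx'
    rcases Finset.mem_union.mp hx with hx | hx
    · exact hx'.2 hx
    · rw [hR, Finset.mem_filter] at hx
      exact hx.2.2 hx'.1.1
  have hmem : ms * c ∈ R := by
    rw [hR, Finset.mem_filter, Nat.mem_divisors]
    refine ⟨⟨Dvd.intro _ hmeq, hmpos.ne'⟩, hmscm.ne, ?_⟩
    intro hcon
    have h1 : p0 ∣ ms := (hp0c.trans (Dvd.intro_left _ rfl)).trans hcon
    rw [hms, Prime.dvd_finsetProd_iff (hPp p0 hp0.1).prime] at h1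
    obtain ⟨x, hx, hqx⟩ := h1
    have : p0 = x := (Nat.prime_dvd_prime_iff_eq (hPp p0 hp0.1) (hPp x (hPsP hx))).mp hqx
    exact hp0.2 (this ▸ hx)
  have hRsum : ms ≤ ∑ d ∈ R, d := by
    calc ms ≤ ms * c := Nat.le_mul_of_pos_right _ hcpos
      _ ≤ ∑ d ∈ R, d := Finset.single_le_sum (f := fun d => d) (fun _ _ => Nat.zero_le _) hmem
  have hstep2 := hstep.greedy (by omega) R' hDRR' (by
    intro e he
    rw [hR', Finset.mem_sdiff, Nat.mem_divisors] at he
    have := Nat.le_of_dvd hmspos he.1.1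
    omega)
  -- union is the set of proper divisors
  have hunion : D ∪ R ∪ R' = m.properDivisors := by
    ext x
    rw [Finset.mem_union, Finset.mem_union, hR, hR', Finset.mem_filter, Finset.mem_sdiff,
      Nat.mem_divisors, Nat.mem_divisors, Nat.mem_properDivisors]
    have hmslt : ms < m := lt_of_le_of_lt (Nat.le_mul_of_pos_right _ hcpos) hmscm
    constructor
    · rintro ((hx | hx) | hx)
      · have h1 := hD x hx
        exact ⟨h1.trans hmsm, lt_of_le_of_lt (Nat.le_of_dvd hmspos h1) hmslt⟩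
      · exact ⟨hx.1.1, lt_of_le_of_ne (Nat.le_of_dvd hmpos hx.1.1) hx.2.1⟩
      · exact ⟨hx.1.1.trans hmsm, lt_of_le_of_lt (Nat.le_of_dvd hmspos hx.1.1) hmslt⟩
    · rintro ⟨h1, h2⟩
      by_cases hxD : x ∈ D
      · exact Or.inl (Or.inl hxD)
      · by_cases hxms : x ∣ ms
        · exact Or.inr ⟨⟨hxms, hmspos.ne'⟩, hxD⟩
        · exact Or.inl (Or.inr ⟨⟨h1, hmpos.ne'⟩, h2.ne, hxms⟩)
  have hSeq : S m = ∑ d ∈ D, d + ∑ d ∈ R, d + ∑ d ∈ R', d := by
    unfold S
    rw [← hunion, Finset.sum_union hDRR', Finset.sum_union hDR]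
  rw [hunion] at hstep2
  refine ⟨⟨∑ d ∈ D, d, ?_, ?_⟩, ?_⟩
  · calc 16 * ∑ d ∈ D, d ≤ 16 * ∑ d ∈ ms.divisors, d := Nat.mul_le_mul_left _ hDsum
      _ = (∑ d ∈ ms.divisors, d) * 16 := mul_comm _ _
      _ ≤ (∑ d ∈ ms.divisors, d) * c := Nat.mul_le_mul_left _ (by omega)
      _ ≤ S m := hSm
  · have hbD := hcov.le_sum hab'
    exact hstep2.mono (by omega) (by omega)
  · -- z ^ 2 ≤ S m
    have hmsz : z ≤ ms := by
      have hne : Q.Nonempty := by
        rw [← Finset.card_pos, hQc]; omega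
      obtain ⟨q, hq⟩ := hne
      have hqs : q ∣ ms := Finset.dvd_prod_of_mem _ (Finset.mem_union_right _ hq)
      exact (hP q (hQP hq)).2.1.trans (Nat.le_of_dvd hmspos hqs)
    calc z ^ 2 = z * z := sq z
      _ ≤ ms * c := Nat.mul_le_mul hmsz hcz
      _ ≤ (∑ d ∈ ms.divisors, d) * c := by
        apply Nat.mul_le_mul_right
        exact Finset.single_le_sum (f := fun d => d) (fun _ _ => Nat.zero_le _)
          (Nat.mem_divisors_self _ hmspos.ne')
      _ ≤ S m := hSm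

end Pool.Agent.Weird
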