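import Pool.Agent.Weird.Block

set_option autoImplicit false

namespace Pool.Agent.Weird

open Finset

theorem sigma_eq {m : ℕ} (hm : 0 < m) : ∑ d ∈ m.divisors, d = S m + m := by
  unfold S
  exact Nat.sum_divisors_eq_sum_properDivisors_add_self

theorem cop_mul_inj {A B d d' f f' : ℕ} (hcop : Nat.Coprime A B) (hd : d ∣ A) (hd' : d' ∣ A)
    (hf : f ∣ B) (hf' : f' ∣ B) (hA : 0 < A) (h : d * f = d' * f') : d = d' ∧ f = f' := by
  have hdf' : Nat.Coprime d f' := Nat.Coprime.coprime_dvd_left hd
    (Nat.Coprime.coprime_dvd_right hf' hcop)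
  have hd'f : Nat.Coprime d' f := Nat.Coprime.coprime_dvd_left hd'
    (Nat.Coprime.coprime_dvd_right hf hcop)
  have h1 : d ∣ d' := by
    have : d ∣ d' * f' := h ▸ Dvd.intro _ rfl
    exact hdf'.dvd_of_dvd_mul_right this
  have h2 : d' ∣ d := by
    have : d' ∣ d * f := h ▸ Dvd.intro _ rfl
    exact hd'f.dvd_of_dvd_mul_right this
  have h3 : d = d' := Nat.dvd_antisymm h1 h2
  refine ⟨h3, ?_⟩
  subst h3
  exact Nat.eq_of_mul_eq_mul_left (Nat.pos_of_dvd_of_pos hd hA) h

theorem cov_biUnion {A B : ℕ} (hcop : Nat.Coprime A B) (hA : 0 < A) {a b : ℕ} (hab : a ≤ b)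
    (hcov : Cov B.properDivisors a b) (E : Finset ℕ) (hEA : ∀ e ∈ E, e ∣ A)
    (hE : ∀ e ∈ E, e = 1 ∨ ∃ e' ∈ E, e' < e ∧ e ≤ (b - a) * e') :
    Cov (E.biUnion (fun d => B.properDivisors.image (fun x => d * x)))
      (a * ∑ e ∈ E, e) (b * ∑ e ∈ E, e) := by
  classical
  induction E using Finset.induction_on_max with
  | empty =>
    intro n h1 h2
    simp only [Finset.sum_empty, mul_zero] at h1 h2
    exact ⟨∅, by simp, by simp; omega⟩
  | insert e E hmax ih =>
    have heE : e ∉ E := fun hmem => lt_irrefl _ (hmax e hmem)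
    have ih' := ih (fun x hx => hEA x (Finset.mem_insert_of_mem hx)) (by
      intro x hx
      rcases hE x (Finset.mem_insert_of_mem hx) with h | ⟨e', he', h1, h2⟩
      · exact Or.inl h
      · right
        rcases Finset.mem_insert.mp he' with h3 | h3
        · have := hmax x hx
          omega
        · exact ⟨e', h3, h1, h2⟩)
    have hepos : 0 < e := Nat.pos_of_dvd_of_pos (hEA e (Finset.mem_insert_self _ _)) hA
    have hcond : e ≤ b * ∑ x ∈ E, x - a * ∑ x ∈ E, x + 1 := by
      rw [← Nat.sub_mul]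
      rcases hE e (Finset.mem_insert_self _ _) with h | ⟨e', he', h1, h2⟩
      · omega
      · rcases Finset.mem_insert.mp he' with h3 | h3
        · omega
        · have h4 : e' ≤ ∑ x ∈ E, x :=
            Finset.single_le_sum (f := fun x => x) (fun _ _ => Nat.zero_le _) h3
          calc e ≤ (b - a) * e' := h2
            _ ≤ (b - a) * ∑ x ∈ E, x := Nat.mul_le_mul_left _ h4
            _ ≤ _ := Nat.le_succ _
    have hdisj : Disjoint (E.biUnion (fun d => B.properDivisors.image (fun x => d * x)))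
        (B.properDivisors.image (fun x => e * x)) := by
      rw [Finset.disjoint_left]
      intro x hx hx'
      rw [Finset.mem_biUnion] at hx
      obtain ⟨d, hd, hx⟩ := hx
      rw [Finset.mem_image] at hx hx'
      obtain ⟨f, hf, rfl⟩ := hx
      obtain ⟨g, hg, hge⟩ := hx'
      have := (cop_mul_inj hcop (hEA d (Finset.mem_insert_of_mem hd))
        (hEA e (Finset.mem_insert_self _ _)) (Nat.mem_properDivisors.mp hf).1
        (Nat.mem_properDivisors.mp hg).1 hA hge.symm).1
      exact heE (this ▸ hd)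
    have hkey := Cov.union_smul ih' hcov (Nat.mul_le_mul_right _ hab) hab hepos hdisj hcond
    rw [Finset.sum_insert heE]
    have hset : (Insert.insert e E).biUnion (fun d => B.properDivisors.image (fun x => d * x)) =
        (E.biUnion (fun d => B.properDivisors.image (fun x => d * x))) ∪
          (B.properDivisors.image (fun x => e * x)) := by
      rw [Finset.biUnion_insert, Finset.union_comm]
    rw [hset]
    have e1 : a * (e + ∑ x ∈ E, x) = a * ∑ x ∈ E, x + e * a := by ring
    have e2 : b * (e + ∑ x ∈ E, x) = b * ∑ x ∈ E, x + e * b := by ring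
    rw [e1, e2]
    exact hkey

theorem S_mul {A B : ℕ} (hcop : Nat.Coprime A B) (hA : 0 < A) (hB : 0 < B) :
    S (A * B) = B * S A + (∑ d ∈ A.divisors, d) * S B := by
  have h1 := Nat.Coprime.sum_divisors_mul hcop
  rw [sigma_eq (Nat.mul_pos hA hB), sigma_eq hA, sigma_eq hB] at h1
  rw [sigma_eq hA]
  nlinarith

theorem comb {A B : ℕ} (hcop : Nat.Coprime A B) (hA : 0 < A) (hB : 0 < B) (hgA : Good A)
    (hgB : Good B) (hp : ∀ p, p.Prime → p ∣ A → 2 * p ≤ S B)
    (hsz : 2 * B ≤ S B * ∑ d ∈ A.divisors, d) : Good (A * B) := by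
  classical
  obtain ⟨aA, haA, hcA⟩ := hgA
  obtain ⟨aB, haB, hcB⟩ := hgB
  have hdiv1 : ∀ e ∈ A.divisors, e = 1 ∨ ∃ e' ∈ A.divisors, e' < e ∧ e ≤ (S B - aB - aB) * e' := by
    intro e he
    rcases eq_or_ne e 1 with h | h
    · exact Or.inl h
    · right
      have hedvd : e ∣ A := Nat.dvd_of_mem_divisors he
      have hepos : 0 < e := Nat.pos_of_dvd_of_pos hedvd hA
      have hpr := Nat.minFac_prime h
      have hpd : e.minFac ∣ e := Nat.minFac_dvd e
      obtain ⟨e', he'⟩ := hpd
      have he'pos : 0 < e' := by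
        rcases Nat.eq_zero_or_pos e' with h0 | h0
        · rw [h0, mul_zero] at he'; omega
        · exact h0
      refine ⟨e', Nat.mem_divisors.mpr ⟨(Dvd.intro_left _ he'.symm).trans hedvd, hA.ne'⟩, ?_, ?_⟩
      · have := hpr.one_lt
        nlinarith
      · have h2 := hp e.minFac hpr ((Nat.minFac_dvd e).trans hedvd)
        calc e = e.minFac * e' := he'
          _ ≤ (S B - aB - aB) * e' := Nat.mul_le_mul_right _ (by omega)
  have hstep1 := cov_biUnion hcop hA (by omega : aB ≤ S B - aB) hcB A.divisors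
    (fun e he => Nat.dvd_of_mem_divisors he) hdiv1
  set σA := ∑ d ∈ A.divisors, d with hσA
  have hdisj : Disjoint (A.divisors.biUnion (fun d => B.properDivisors.image (fun x => d * x)))
      (A.properDivisors.image (fun x => B * x)) := by
    rw [Finset.disjoint_left]
    intro x hx hx'
    rw [Finset.mem_biUnion] at hx
    obtain ⟨d, hd, hx⟩ := hx
    rw [Finset.mem_image] at hx hx'
    obtain ⟨f, hf, rfl⟩ := hx
    obtain ⟨g, hg, hge⟩ := hx'
    rw [mul_comm B g] at hge
    have := (cop_mul_inj hcop (Nat.mem_properDivisors.mp hg).1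
      (Nat.dvd_of_mem_divisors hd) (dvd_refl B)
      (Nat.mem_properDivisors.mp hf).1 hA hge).2
    have h3 := (Nat.mem_properDivisors.mp hf).2
    omega
  have hlen : B ≤ (S B - aB) * σA - aB * σA + 1 := by
    rw [← Nat.sub_mul]
    have h1 : S B ≤ 2 * (S B - aB - aB) := by omega
    have h2 : 2 * B ≤ 2 * ((S B - aB - aB) * σA) := by
      calc 2 * B ≤ S B * σA := hsz
        _ ≤ (2 * (S B - aB - aB)) * σA := Nat.mul_le_mul_right _ h1
        _ = 2 * ((S B - aB - aB) * σA) := by ring
    omega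
  have hstep2 := Cov.union_smul hstep1 hcA (Nat.mul_le_mul_right _ (by omega)) (by omega) hB
    hdisj hlen
  have hS := S_mul hcop hA hB
  rw [← hσA] at hS
  refine ⟨aB * σA + B * aA, ?_, ?_⟩
  · rw [hS]
    nlinarith
  · have hsub : (A.divisors.biUnion (fun d => B.properDivisors.image (fun x => d * x))) ∪
      (A.properDivisors.image (fun x => B * x)) ⊆ (A * B).properDivisors := by
      intro x hx
      rw [Finset.mem_union, Finset.mem_biUnion] at hx
      rw [Nat.mem_properDivisors]
      rcases hx with ⟨d, hd, hx⟩ | hx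
      · rw [Finset.mem_image] at hx
        obtain ⟨f, hf, rfl⟩ := hx
        rw [Nat.mem_properDivisors] at hf
        have hd' := Nat.dvd_of_mem_divisors hd
        refine ⟨Nat.mul_dvd_mul hd' hf.1, ?_⟩
        exact Nat.mul_lt_mul_of_le_of_lt (Nat.le_of_dvd hA hd') hf.2 hA
      · rw [Finset.mem_image] at hx
        obtain ⟨g, hg, rfl⟩ := hx
        rw [Nat.mem_properDivisors] at hg
        rw [mul_comm A B]
        exact ⟨Nat.mul_dvd_mul_left _ hg.1, Nat.mul_lt_mul_of_pos_left hg.2 hB⟩
    have hb : S (A * B) - (aB * σA + B * aA) = (S B - aB) * σA + B * (S A - aA) := by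
      rw [hS, Nat.sub_mul, Nat.mul_sub]
      have h1 : aB * σA ≤ S B * σA := Nat.mul_le_mul_right _ (by omega)
      have h2 : B * aA ≤ B * S A := Nat.mul_le_mul_left _ (by omega)
      have h3 : σA * S B = S B * σA := mul_comm _ _
      omega
    rw [hb]
    exact hstep2.subset hsub

/-- A good `m` with `S m / m` in the window `[2,16]` is semiperfect. -/
theorem Good.semiperfect {m : ℕ} (h : Good m) (h1 : 2 * m ≤ S m) (h2 : S m ≤ 16 * m) :
    ∃ s ⊆ m.properDivisors, ∑ i ∈ s, i = m := by
  obtain ⟨a, ha, hcov⟩ := h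
  exact hcov m (by omega) (by omega)

theorem semiperfect_of_dvd {m n : ℕ} (hn : 0 < n) (hmn : m ∣ n)
    (h : ∃ s ⊆ m.properDivisors, ∑ i ∈ s, i = m) : ∃ s ⊆ n.properDivisors, ∑ i ∈ s, i = n := by
  classical
  obtain ⟨k, rfl⟩ := hmn
  obtain ⟨s, hs, hsum⟩ := h
  have hk : 0 < k := Nat.pos_of_mul_pos_left hn |> fun h => by
    rcases Nat.eq_zero_or_pos k with h0 | h0
    · rw [h0, mul_zero] at hn; omega
    · exact h0
  refine ⟨s.image (fun x => x * k), ?_, ?_⟩
  · intro x hx
    rw [Finset.mem_image] at hx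
    obtain ⟨y, hy, rfl⟩ := hx
    have := Nat.mem_properDivisors.mp (hs hy)
    rw [Nat.mem_properDivisors]
    exact ⟨Nat.mul_dvd_mul_right this.1 _, Nat.mul_lt_mul_of_pos_right this.2 hk⟩
  · rw [Finset.sum_image, ← Finset.sum_mul, hsum]
    intro x _ y _ hxy
    exact Nat.eq_of_mul_eq_mul_right hk hxy

end Pool.Agent.Weird
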