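import Mathlib

set_option autoImplicit false

namespace Pool.Agent.Weird

open Finset

/-- Every integer in `[a,b]` is a sum of distinct elements of `D`. -/
def Cov (D : Finset ℕ) (a b : ℕ) : Prop :=
  ∀ n : ℕ, a ≤ n → n ≤ b → ∃ s ⊆ D, ∑ i ∈ s, i = n

theorem Cov.mono {D : Finset ℕ} {a b a' b' : ℕ} (h : Cov D a b) (ha : a ≤ a') (hb : b' ≤ b) :
    Cov D a' b' := fun n h1 h2 => h n (ha.trans h1) (h2.trans hb)

theorem Cov.subset {D E : Finset ℕ} {a b : ℕ} (h : Cov D a b) (hDE : D ⊆ E) :
    Cov E a b := fun n h1 h2 => by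
  obtain ⟨s, hs, hsum⟩ := h n h1 h2
  exact ⟨s, hs.trans hDE, hsum⟩

theorem Cov.le_sum {D : Finset ℕ} {a b : ℕ} (h : Cov D a b) (hab : a ≤ b) :
    b ≤ ∑ i ∈ D, i := by
  obtain ⟨s, hs, hsum⟩ := h b hab le_rfl
  rw [← hsum]
  exact Finset.sum_le_sum_of_subset hs

/-- Universal extension lemma. -/
theorem Cov.union_smul {D D' : Finset ℕ} {a b a' b' d : ℕ} (h : Cov D a b) (h' : Cov D' a' b')
    (hab : a ≤ b) (hab' : a' ≤ b') (hd0 : 0 < d) (hdisj : Disjoint D (D'.image (fun x => d * x)))
    (hd : d ≤ b - a + 1) :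
    Cov (D ∪ D'.image (fun x => d * x)) (a + d * a') (b + d * b') := by
  intro n h1 h2
  -- choose j
  obtain ⟨j, hj1, hj2, hj3, hj4⟩ : ∃ j, a' ≤ j ∧ j ≤ b' ∧ a + d * j ≤ n ∧ n ≤ b + d * j := by
    by_cases hc : n ≤ b + d * a'
    · exact ⟨a', le_rfl, hab', h1, hc⟩
    · push Not at hc
      -- smallest j with n ≤ b + d * j
      have hex : ∃ j, n ≤ b + d * j := ⟨b', h2⟩
      classical
      let j := Nat.find hex
      have hjspec : n ≤ b + d * j := Nat.find_spec hex
      have hjle : j ≤ b' := Nat.find_min' hex h2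
      have hja : a' < j := by
        by_contra hcon
        push Not at hcon
        have : d * j ≤ d * a' := Nat.mul_le_mul_left d hcon
        omega
      have hjpos : 0 < j := by omega
      have hpred : ¬ n ≤ b + d * (j - 1) := Nat.find_min hex (by omega)
      push Not at hpred
      refine ⟨j, hja.le, hjle, ?_, hjspec⟩
      have hmul : d * j = d * (j - 1) + d := by
        conv_lhs => rw [show j = (j - 1) + 1 by omega]
        ring
      omega
  obtain ⟨s, hs, hsum⟩ := h (n - d * j) (by omega) (by omega)
  obtain ⟨s', hs', hsum'⟩ := h' j hj1 hj2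
  refine ⟨s ∪ s'.image (fun x => d * x), ?_, ?_⟩
  · exact Finset.union_subset_union hs (Finset.image_subset_image hs')
  · have hdis : Disjoint s (s'.image (fun x => d * x)) :=
      Finset.disjoint_of_subset_left hs
        (Finset.disjoint_of_subset_right (Finset.image_subset_image hs') hdisj)
    rw [Finset.sum_union hdis, hsum, Finset.sum_image, ← Finset.mul_sum, hsum']
    · omega
    · intro x _ y _ hxy
      exact Nat.eq_of_mul_eq_mul_left hd0 hxy

theorem Cov.insert_elt {D : Finset ℕ} {a b e : ℕ} (h : Cov D a b) (hab : a ≤ b) (he : e ∉ D)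
    (hle : e ≤ b - a + 1) : Cov (insert e D) a (b + e) := by
  intro n h1 h2
  by_cases hc : n ≤ b
  · obtain ⟨s, hs, hsum⟩ := h n h1 hc
    exact ⟨s, hs.trans (Finset.subset_insert _ _), hsum⟩
  · push Not at hc
    obtain ⟨s, hs, hsum⟩ := h (n - e) (by omega) (by omega)
    refine ⟨insert e s, Finset.insert_subset_insert _ hs, ?_⟩
    rw [Finset.sum_insert (fun hmem => he (hs hmem)), hsum]
    omega

/-- Greedy extension by a set `R` disjoint from `D`. -/
theorem Cov.greedy {D : Finset ℕ} {a b : ℕ} (h : Cov D a b) (hab : a ≤ b) (R : Finset ℕ)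
    (hdisj : Disjoint D R)
    (hR : ∀ e ∈ R, e ≤ (b - a) + ∑ d ∈ R.filter (fun d => d < e), d + 1) :
    Cov (D ∪ R) a (b + ∑ d ∈ R, d) := by
  induction R using Finset.induction_on_max with
  | empty => simpa using h
  | insert e R hmax ih =>
    have heR : e ∉ R := fun hmem => lt_irrefl _ (hmax e hmem)
    have hdisj' : Disjoint D R := Finset.disjoint_of_subset_right (Finset.subset_insert _ _) hdisj
    have heD : e ∉ D := by
      intro hmem
      exact (Finset.disjoint_left.mp hdisj hmem) (Finset.mem_insert_self _ _)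
    have hfilt : (Insert.insert e R).filter (fun d => d < e) = R := by
      ext x
      simp only [Finset.mem_filter, Finset.mem_insert]
      constructor
      · rintro ⟨h1 | h1, h2⟩
        · omega
        · exact h1
      · intro hx
        exact ⟨Or.inr hx, hmax x hx⟩
    have hstep := hR e (Finset.mem_insert_self _ _)
    rw [hfilt] at hstep
    have ih' := ih hdisj' (by
      intro x hx
      have := hR x (Finset.mem_insert_of_mem hx)
      have hf : (Insert.insert e R).filter (fun d => d < x) = R.filter (fun d => d < x) := by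
        ext y
        simp only [Finset.mem_filter, Finset.mem_insert]
        constructor
        · rintro ⟨h1 | h1, h2⟩
          · have := hmax x hx
            omega
          · exact ⟨h1, h2⟩
        · rintro ⟨h1, h2⟩
          exact ⟨Or.inr h1, h2⟩
      rw [hf] at this
      exact this)
    have hins : e ∉ D ∪ R := by
      simp only [Finset.mem_union, not_or]
      exact ⟨heD, heR⟩
    have := ih'.insert_elt (by omega) hins (by omega)
    rw [Finset.sum_insert heR]
    have h1 : D ∪ Insert.insert e R = Insert.insert e (D ∪ R) := by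
      rw [Finset.union_insert]
    rw [h1]
    have h2 : b + (e + ∑ d ∈ R, d) = b + ∑ d ∈ R, d + e := by ring
    rw [h2]
    exact this

end Pool.Agent.Weird
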