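import Pool.Agent.Weird.Cov

set_option autoImplicit false

namespace Pool.Agent.Weird

open Finset

/-- Products over sets of primes determine the set. -/
theorem prod_injOn_primes {P : Finset ℕ} (hP : ∀ p ∈ P, p.Prime) {w w' : Finset ℕ}
    (hw : w ⊆ P) (hw' : w' ⊆ P) (h : ∏ p ∈ w, p = ∏ p ∈ w', p) : w = w' := by
  have h1 : (∏ p ∈ w, p).primeFactors = w := Nat.primeFactors_prod (fun p hp => hP p (hw hp))
  have h2 : (∏ p ∈ w', p).primeFactors = w' := Nat.primeFactors_prod (fun p hp => hP p (hw' hp))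
  rw [← h1, h, h2]

/-- Pigeonhole: many elements in a bounded interval have a common small difference. -/
theorem exists_diff {A : Finset ℕ} {H M : ℕ} (hH : 2 ≤ H) (hA : ∀ a ∈ A, a / H < M)
    (hcard : 2 * M ≤ A.card) :
    ∃ δ, 1 ≤ δ ∧ δ < H ∧ ∃ B ⊆ A, (∀ a ∈ B, a + δ ∈ A ∧ a + δ ∉ B) ∧
      A.card ≤ 4 * H * B.card + 4 * H := by
  classical
  set A' := A.filter (fun a => ∃ b ∈ A, a < b ∧ b / H = a / H) with hA'
  have hsub : A' ⊆ A := Finset.filter_subset _ _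
  have hcompl : (A \ A').card ≤ M := by
    have : (A \ A').card ≤ (Finset.range M).card := by
      apply Finset.card_le_card_of_injOn (fun a => a / H)
      · intro a ha
        simp only [Finset.coe_sdiff, Set.mem_sdiff, Finset.mem_coe] at ha
        simp only [Finset.coe_range, Set.mem_Iio]
        exact hA a ha.1
      · intro a ha b hb hab
        simp only [Finset.coe_sdiff, Set.mem_sdiff, Finset.mem_coe] at ha hb
        simp only at hab
        by_contra hne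
        rcases lt_or_gt_of_ne hne with hlt | hlt
        · exact ha.2 (by rw [hA', Finset.mem_filter]; exact ⟨ha.1, b, hb.1, hlt, hab.symm⟩)
        · exact hb.2 (by rw [hA', Finset.mem_filter]; exact ⟨hb.1, a, ha.1, hlt, hab⟩)
    simpa using this
  have hA'card : A.card ≤ 2 * A'.card := by
    have := Finset.card_sdiff_add_card_eq_card hsub
    omega
  -- choose partner
  have hpart : ∀ a ∈ A', ∃ δ, 1 ≤ δ ∧ δ < H ∧ a + δ ∈ A := by
    intro a ha
    rw [hA', Finset.mem_filter] at ha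
    obtain ⟨_, b, hb, hlt, hdiv⟩ := ha
    refine ⟨b - a, by omega, ?_, by rwa [Nat.add_sub_cancel' hlt.le]⟩
    have h1 := Nat.div_add_mod a H
    have h2 := Nat.div_add_mod b H
    rw [hdiv] at h2
    have h3 := Nat.mod_lt b (show 0 < H by omega)
    omega
  choose! f hf1 hf2 hf3 using hpart
  have hmaps : ∀ a ∈ A', f a ∈ Finset.Ico 1 H := by
    intro a ha
    rw [Finset.mem_Ico]
    exact ⟨hf1 a ha, hf2 a ha⟩
  have hne : (Finset.Ico 1 H).Nonempty := ⟨1, by rw [Finset.mem_Ico]; omega⟩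
  obtain ⟨δ, hδ, hfib⟩ := Finset.exists_le_card_fiber_of_mul_le_card_of_maps_to
    (n := A'.card / H) hmaps hne (by
      rw [Nat.card_Ico]
      calc (H - 1) * (A'.card / H) ≤ H * (A'.card / H) := Nat.mul_le_mul_right _ (by omega)
        _ ≤ A'.card := Nat.mul_div_le _ _)
  rw [Finset.mem_Ico] at hδ
  set F := A'.filter (fun x => f x = δ) with hF
  have hFA : ∀ a ∈ F, a ∈ A ∧ a + δ ∈ A := by
    intro a ha
    rw [hF, Finset.mem_filter] at ha
    refine ⟨hsub ha.1, ?_⟩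
    have := hf3 a ha.1
    rwa [ha.2] at this
  -- parity
  set B0 := F.filter (fun a => (a / δ) % 2 = 0) with hB0
  set B1 := F.filter (fun a => ¬ (a / δ) % 2 = 0) with hB1
  have hsplit : B0.card + B1.card = F.card := by
    rw [hB0, hB1]
    exact Finset.card_filter_add_card_filter_not _
  have hdivadd : ∀ a : ℕ, (a + δ) / δ = a / δ + 1 := fun a => Nat.add_div_right a (by omega)
  have key : ∀ B : Finset ℕ, (∀ a ∈ B, a + δ ∉ B) → B ⊆ F → F.card ≤ 2 * B.card →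
      ∃ δ, 1 ≤ δ ∧ δ < H ∧ ∃ B ⊆ A, (∀ a ∈ B, a + δ ∈ A ∧ a + δ ∉ B) ∧
      A.card ≤ 4 * H * B.card + 4 * H := by
    intro B hB hBF hBc
    refine ⟨δ, hδ.1, hδ.2, B, fun a ha => (hFA a (hBF ha)).1,
      fun a ha => ⟨(hFA a (hBF ha)).2, hB a ha⟩, ?_⟩
    have h1 : A'.card < H * (A'.card / H) + H := by
      have := Nat.div_add_mod A'.card H
      have h3 := Nat.mod_lt A'.card (show 0 < H by omega)
      omega
    have h2 : H * (A'.card / H) ≤ H * (2 * B.card) := Nat.mul_le_mul_left _ (hfib.trans hBc)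
    nlinarith
  rcases Nat.lt_or_ge B0.card B1.card with hlt | hge
  · apply key B1 _ (Finset.filter_subset _ _) (by omega)
    intro a ha hcon
    rw [hB1, Finset.mem_filter] at ha hcon
    rw [hdivadd] at hcon
    omega
  · apply key B0 _ (Finset.filter_subset _ _) (by omega)
    intro a ha hcon
    rw [hB0, Finset.mem_filter] at ha hcon
    rw [hdivadd] at hcon
    omega

/-- Arithmetic progression of subset sums. -/
theorem ap_sums {B : Finset ℕ} {δ : ℕ} (hB : ∀ a ∈ B, a + δ ∉ B) {j : ℕ} (hj : j ≤ B.card) :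
    ∃ s ⊆ B ∪ B.image (fun a => a + δ), ∑ i ∈ s, i = ∑ i ∈ B, i + j * δ := by
  obtain ⟨T, hT, hTc⟩ := Finset.exists_subset_card_eq hj
  refine ⟨(B \ T) ∪ T.image (fun a => a + δ), ?_, ?_⟩
  · exact Finset.union_subset_union Finset.sdiff_subset (Finset.image_subset_image hT)
  · have hdisj : Disjoint (B \ T) (T.image (fun a => a + δ)) := by
      rw [Finset.disjoint_left]
      intro x hx hx'
      rw [Finset.mem_image] at hx'
      obtain ⟨a, ha, rfl⟩ := hx'
      exact hB a (hT ha) (Finset.mem_sdiff.mp hx).1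
    rw [Finset.sum_union hdisj, Finset.sum_image]
    · rw [Finset.sum_add_distrib, Finset.sum_const, hTc, smul_eq_mul, ← add_assoc,
        Finset.sum_sdiff hT]
    · intro x _ y _ hxy
      simpa using hxy

/-- Residues: `δ` integers in one invertible class modulo `δ`. -/
theorem residue_sums {E : Finset ℕ} {δ c U : ℕ} (hδ : 1 ≤ δ) (hE : ∀ e ∈ E, e % δ = c % δ)
    (hc : Nat.Coprime c δ) (hcard : δ ≤ E.card) (hU : ∀ e ∈ E, e ≤ U) (r : ℕ) :
    ∃ s ⊆ E, (∑ i ∈ s, i) % δ = r % δ ∧ ∑ i ∈ s, i ≤ δ * U := by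
  -- find j < δ with j * c ≡ r
  obtain ⟨j, hj, hjr⟩ : ∃ j, j < δ ∧ (j * c) % δ = r % δ := by
    obtain ⟨m, hm, hm'⟩ := Nat.exists_mul_mod_eq_of_coprime r hc (by omega)
    exact ⟨m, hm, by rw [mul_comm]; exact hm'⟩
  obtain ⟨s, hs, hsc⟩ := Finset.exists_subset_card_eq (hj.le.trans hcard)
  refine ⟨s, hs, ?_, ?_⟩
  · rw [← hjr, Finset.sum_nat_mod]
    have : ∑ i ∈ s, i % δ = ∑ i ∈ s, c % δ := Finset.sum_congr rfl (fun i hi => hE i (hs hi))
    rw [this, Finset.sum_const, hsc, smul_eq_mul, Nat.mul_mod, Nat.mod_mod, ← Nat.mul_mod]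
  · calc ∑ i ∈ s, i ≤ s.card • U := Finset.sum_le_card_nsmul _ _ _ (fun i hi => hU i (hs hi))
      _ = j * U := by rw [hsc, smul_eq_mul]
      _ ≤ δ * U := Nat.mul_le_mul_right _ hj.le

theorem stage1 {z L : ℕ} {P : Finset ℕ} (hP : ∀ p ∈ P, p.Prime ∧ z ≤ p ∧ p < 2 * z)
    (hL : 1 ≤ L) (hz : 2 ^ 40 * L ^ 6 ≤ z) (hcard : z ≤ 8 * P.card * L) :
    ∃ D : Finset ℕ, (∀ d ∈ D, d ∣ ∏ p ∈ P, p) ∧ ∃ a b, a + 2 * z ≤ b ∧ Cov D a b := by
  classical
  set J := P.card with hJ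
  have hL2 : 1 ≤ L ^ 2 := Nat.one_le_pow _ _ hL
  have hL4 : 1 ≤ L ^ 4 := Nat.one_le_pow _ _ hL
  have hL5 : 1 ≤ L ^ 5 := Nat.one_le_pow _ _ hL
  have hL6 : 1 ≤ L ^ 6 := Nat.one_le_pow _ _ hL
  have hJbig : 2 ^ 37 * L ^ 5 ≤ J := by
    have h1 : 2 ^ 40 * L ^ 6 ≤ 8 * J * L := hz.trans hcard
    have h2 : (2 ^ 37 * L ^ 5) * (8 * L) ≤ J * (8 * L) := by
      calc (2 ^ 37 * L ^ 5) * (8 * L) = 2 ^ 40 * L ^ 6 := by ring
        _ ≤ 8 * J * L := h1
        _ = J * (8 * L) := by ring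
    exact Nat.le_of_mul_le_mul_right h2 (by omega)
  have hJ2 : 2 ≤ J := by
    have : 2 ^ 37 * 1 ≤ 2 ^ 37 * L ^ 5 := Nat.mul_le_mul_left _ hL5
    omega
  set A : Finset ℕ := (P.powersetCard 2).image (fun w => ∏ p ∈ w, p) with hA
  have hPp : ∀ p ∈ P, p.Prime := fun p hp => (hP p hp).1
  have hAcard : A.card = J.choose 2 := by
    rw [hA, Finset.card_image_of_injOn, Finset.card_powersetCard]
    intro w hw w' hw' h
    rw [Finset.mem_coe, Finset.mem_powersetCard] at hw hw'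
    exact prod_injOn_primes hPp hw.1 hw'.1 h
  set N := A.card with hN
  have hN4 : J ^ 2 ≤ 4 * N := by
    rw [hAcard, Nat.choose_two_right]
    have heven : 2 ∣ J * (J - 1) := (Nat.even_mul_pred_self J).two_dvd
    have h1 : J * (J - 1) / 2 * 2 = J * (J - 1) := Nat.div_mul_cancel heven
    have h2 : J * (J - 1) = J * J - J := by
      rw [Nat.mul_sub, mul_one]
    have h3 : 2 * J ≤ J * J := Nat.mul_le_mul_right _ hJ2
    have h4 : J ^ 2 = J * J := sq J
    omega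
  have hzN : z ^ 2 ≤ 256 * N * L ^ 2 := by
    calc z ^ 2 ≤ (8 * J * L) ^ 2 := Nat.pow_le_pow_left hcard 2
      _ = 64 * L ^ 2 * J ^ 2 := by ring
      _ ≤ 64 * L ^ 2 * (4 * N) := Nat.mul_le_mul_left _ hN4
      _ = 256 * N * L ^ 2 := by ring
  set H := 4096 * L ^ 2 with hH
  have hH2 : 2 ≤ H := by omega
  have hNbig : 16 ≤ N := by
    have h1 : (2 ^ 37) ^ 2 ≤ J ^ 2 := Nat.pow_le_pow_left (by
      have : 2 ^ 37 * 1 ≤ 2 ^ 37 * L ^ 5 := Nat.mul_le_mul_left _ hL5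
      omega) 2
    omega
  have hAmem : ∀ a ∈ A, a < 4 * z ^ 2 ∧ ¬ a.Prime ∧ a ∣ ∏ p ∈ P, p := by
    intro a ha
    rw [hA, Finset.mem_image] at ha
    obtain ⟨w, hw, rfl⟩ := ha
    rw [Finset.mem_powersetCard] at hw
    obtain ⟨hwP, hwc⟩ := hw
    refine ⟨?_, ?_, Finset.prod_dvd_prod_of_subset _ _ _ hwP⟩
    · obtain ⟨x, y, hxy, rfl⟩ := Finset.card_eq_two.mp hwc
      rw [Finset.prod_pair hxy]
      have hx := hP x (hwP (by simp))
      have hy := hP y (hwP (by simp))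
      nlinarith [hx.2.2, hy.2.2, hx.1.pos, hy.1.pos]
    · intro hprime
      have h1 : (∏ p ∈ w, p).primeFactors = w :=
        Nat.primeFactors_prod (fun p hp => hPp p (hwP hp))
      rw [hprime.primeFactors] at h1
      rw [← h1] at hwc
      simp at hwc
  set M := 4 * z ^ 2 / H + 1 with hM
  have hMN : 2 * M ≤ N := by
    have h1 : 4 * z ^ 2 ≤ H * (N / 4) + H := by
      have h2 : 4 * z ^ 2 ≤ 1024 * N * L ^ 2 := by
        calc 4 * z ^ 2 ≤ 4 * (256 * N * L ^ 2) := Nat.mul_le_mul_left _ hzN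
          _ = 1024 * N * L ^ 2 := by ring
      have h3 : N ≤ 4 * (N / 4) + 4 := by omega
      calc 4 * z ^ 2 ≤ 1024 * N * L ^ 2 := h2
        _ ≤ 1024 * (4 * (N / 4) + 4) * L ^ 2 := by gcongr
        _ = H * (N / 4) + H := by rw [hH]; ring
    have h4 : 4 * z ^ 2 / H ≤ N / 4 + 1 := by
      calc 4 * z ^ 2 / H ≤ (H * (N / 4) + H) / H := Nat.div_le_div_right h1
        _ = N / 4 + 1 := by
          rw [show H * (N / 4) + H = H * (N / 4 + 1) by ring]
          exact Nat.mul_div_cancel_left _ (by omega)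
    omega
  obtain ⟨δ, hδ1, hδH, B, hBA, hB, hBcard⟩ := exists_diff hH2 (A := A) (M := M) (fun a ha => by
    rw [hM]
    exact Nat.lt_succ_of_le (Nat.div_le_div_right (hAmem a ha).1.le)) hMN
  have hBbig : 4 * z ≤ B.card := by
    have h1 : N ≤ 4 * H * (B.card + 1) := by
      calc N ≤ 4 * H * B.card + 4 * H := hBcard
        _ = 4 * H * (B.card + 1) := by ring
    have h2 : z ^ 2 ≤ 2 ^ 22 * L ^ 4 * (B.card + 1) := by
      calc z ^ 2 ≤ 256 * N * L ^ 2 := hzN
        _ ≤ 256 * (4 * H * (B.card + 1)) * L ^ 2 := by gcongr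
        _ = 2 ^ 22 * L ^ 4 * (B.card + 1) := by rw [hH]; ring
    have h3 : 2 ^ 40 * L ^ 4 * z ≤ z ^ 2 := by
      calc 2 ^ 40 * L ^ 4 * z ≤ (2 ^ 40 * L ^ 6) * z := by
            gcongr
            norm_num
        _ ≤ z * z := Nat.mul_le_mul_right _ hz
        _ = z ^ 2 := (sq z).symm
    have h4 : (2 ^ 22 * L ^ 4) * (2 ^ 18 * z) ≤ (2 ^ 22 * L ^ 4) * (B.card + 1) := by
      calc (2 ^ 22 * L ^ 4) * (2 ^ 18 * z) = 2 ^ 40 * L ^ 4 * z := by ring
        _ ≤ z ^ 2 := h3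
        _ ≤ _ := h2
    have h5 : 2 ^ 18 * z ≤ B.card + 1 := Nat.le_of_mul_le_mul_left h4 (by positivity)
    omega
  -- the primes for residues
  have hδJ : δ * δ ≤ J := by
    have h1 : δ ≤ 4096 * L ^ 2 := by omega
    calc δ * δ ≤ (4096 * L ^ 2) * (4096 * L ^ 2) := Nat.mul_le_mul h1 h1
      _ = 2 ^ 24 * L ^ 4 := by ring
      _ ≤ 2 ^ 37 * L ^ 5 := by
        gcongr <;> norm_num
      _ ≤ J := hJbig
  obtain ⟨y, hy, hfib⟩ := Finset.exists_le_card_fiber_of_mul_le_card_of_maps_to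
    (s := P) (t := Finset.range δ) (f := fun p => p % δ) (n := δ)
    (fun p _ => Finset.mem_range.mpr (Nat.mod_lt _ (by omega)))
    ⟨0, Finset.mem_range.mpr (by omega)⟩ (by rw [Finset.card_range]; exact hδJ)
  set E := P.filter (fun p => p % δ = y) with hE
  have hEne : E.Nonempty := by
    rw [← Finset.card_pos]
    omega
  obtain ⟨c, hc⟩ := hEne
  have hcE : ∀ e ∈ E, e % δ = c % δ := by
    intro e he
    rw [hE, Finset.mem_filter] at he hc
    rw [he.2, hc.2]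
  have hEP : E ⊆ P := Finset.filter_subset _ _
  have hcop : Nat.Coprime c δ := by
    have hcp := hP c (hEP hc)
    rw [Nat.Prime.coprime_iff_not_dvd hcp.1]
    intro hdvd
    have := Nat.le_of_dvd (by omega) hdvd
    have h2 : 4096 * L ^ 2 ≤ 2 ^ 40 * L ^ 6 := by
      gcongr <;> norm_num
    omega
  refine ⟨(B ∪ B.image (fun a => a + δ)) ∪ E, ?_, ∑ i ∈ B, i + δ * (2 * z),
    ∑ i ∈ B, i + B.card * δ, ?_, ?_⟩
  · intro d hd
    simp only [Finset.mem_union, Finset.mem_image] at hd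
    rcases hd with (hd | ⟨a, ha, rfl⟩) | hd
    · exact (hAmem d (hBA hd)).2.2
    · exact (hAmem _ (hB a ha).1).2.2
    · exact Finset.dvd_prod_of_mem _ (hEP hd)
  · have h1 : 4 * z * δ ≤ B.card * δ := Nat.mul_le_mul_right _ hBbig
    nlinarith
  · intro n hn1 hn2
    obtain ⟨s₂, hs₂, hmod, hle⟩ := residue_sums hδ1 hcE hcop hfib
      (fun e he => (hP e (hEP he)).2.2.le) (n - ∑ i ∈ B, i)
    set r := n - ∑ i ∈ B, i with hr
    have hrle : ∑ i ∈ s₂, i ≤ r := by omega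
    have hdvd : δ ∣ r - ∑ i ∈ s₂, i := (Nat.modEq_iff_dvd' hrle).mp hmod
    obtain ⟨j, hj⟩ := hdvd
    have hjB : j ≤ B.card := by
      have h1 : δ * j ≤ δ * B.card := by
        calc δ * j ≤ r := by omega
          _ ≤ B.card * δ := by omega
          _ = δ * B.card := mul_comm _ _
      exact Nat.le_of_mul_le_mul_left h1 (by omega)
    obtain ⟨s₁, hs₁, hsum₁⟩ := ap_sums (fun a ha => (hB a ha).2) hjB
    refine ⟨s₁ ∪ s₂, Finset.union_subset_union hs₁ hs₂, ?_⟩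
    have hdisj : Disjoint s₁ s₂ := by
      rw [Finset.disjoint_left]
      intro x hx hx'
      have hxp := hPp x (hEP (hs₂ hx'))
      have hx1 := hs₁ hx
      simp only [Finset.mem_union, Finset.mem_image] at hx1
      rcases hx1 with hx1 | ⟨a, ha, rfl⟩
      · exact (hAmem x (hBA hx1)).2.1 hxp
      · exact (hAmem _ (hB a ha).1).2.1 hxp
    rw [Finset.sum_union hdisj, hsum₁]
    have : j * δ = δ * j := mul_comm _ _
    omega

end Pool.Agent.Weird
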